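import Mathlib

/-!
Families of finite sets closed under `x + y + z` (symmetric difference), i.e. affine subspaces
over the field with two elements, and the number of members of given size.
-/

namespace Pool.Agent.H59.CW

open Finset

set_option linter.unusedSectionVars false

variable {α : Type*} [DecidableEq α]

/-- `x + y + z` for finite sets (as vectors over the field with two elements). -/
def tri (x y z : Finset α) : Finset α := symmDiff (symmDiff x y) z

theorem mem_tri {x y z : Finset α} {i : α} :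
    i ∈ tri x y z ↔ (i ∈ x ↔ (i ∈ y ↔ i ∈ z)) := by
  unfold tri
  simp only [Finset.mem_symmDiff]
  tauto

/-- A nonempty family closed under `x + y + z`. -/
def Flat (A : Finset (Finset α)) : Prop :=
  A.Nonempty ∧ ∀ x ∈ A, ∀ y ∈ A, ∀ z ∈ A, tri x y z ∈ A

/-- Number of members of size `w`. -/
def cnt (A : Finset (Finset α)) (w : ℕ) : ℕ := (A.filter (fun x => x.card = w)).card

/-- Affine predicates. -/
def Aff (p : Finset α → Prop) : Prop := ∀ x y z, p (tri x y z) ↔ (p x ↔ (p y ↔ p z))

theorem aff_mem (i : α) : Aff (fun x : Finset α => i ∈ x) := fun _ _ _ => mem_tri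

theorem Aff.not {p : Finset α → Prop} (h : Aff p) : Aff (fun x => ¬ p x) := by
  intro x y z
  have := h x y z
  tauto

theorem aff_split (j l : α) : Aff (fun x : Finset α => ¬ (j ∈ x ↔ l ∈ x)) := by
  intro x y z
  simp only [mem_tri]
  by_cases h1 : j ∈ x <;> by_cases h2 : j ∈ y <;> by_cases h3 : j ∈ z <;>
    by_cases h4 : l ∈ x <;> by_cases h5 : l ∈ y <;> by_cases h6 : l ∈ z <;>
    simp [h1, h2, h3, h4, h5, h6]

theorem tri_self (x y : Finset α) : tri x y y = x := by
  ext i; simp only [mem_tri]; tauto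

theorem tri_comm (x y z : Finset α) : tri x y z = tri x z y := by
  ext i; simp only [mem_tri]; tauto

theorem tri_tri (x a b : Finset α) : tri (tri x a b) a b = x := by
  ext i; simp only [mem_tri]; tauto

theorem tri_subset {x y z U : Finset α} (hx : x ⊆ U) (hy : y ⊆ U) (hz : z ⊆ U) :
    tri x y z ⊆ U := by
  intro i hi
  rw [mem_tri] at hi
  by_contra h
  have h1 : i ∉ x := fun q => h (hx q)
  have h2 : i ∉ y := fun q => h (hy q)
  have h3 : i ∉ z := fun q => h (hz q)
  tauto

theorem tri_sdiff (x y z T : Finset α) : tri x y z \ T = tri (x \ T) (y \ T) (z \ T) := by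
  ext i; simp only [mem_tri, Finset.mem_sdiff]; tauto

theorem Flat.filter {A : Finset (Finset α)} (hA : Flat A) {p : Finset α → Prop}
    [DecidablePred p] (hp : Aff p) (h : ∃ x ∈ A, p x) : Flat (A.filter p) := by
  obtain ⟨a, ha, hpa⟩ := h
  refine ⟨⟨a, by simp [ha, hpa]⟩, ?_⟩
  intro x hx y hy z hz
  simp only [Finset.mem_filter] at *
  refine ⟨hA.2 x hx.1 y hy.1 z hz.1, ?_⟩
  rw [hp]
  tauto

theorem Flat.card_half {A : Finset (Finset α)} (hA : Flat A) {p : Finset α → Prop}
    [DecidablePred p] (hp : Aff p) (h1 : ∃ x ∈ A, p x) (h2 : ∃ x ∈ A, ¬ p x) :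
    (A.filter p).card = (A.filter (fun x => ¬ p x)).card := by
  obtain ⟨a, ha, hpa⟩ := h1
  obtain ⟨b, hb, hpb⟩ := h2
  apply Finset.card_nbij' (fun x => tri x a b) (fun x => tri x a b)
  · intro x hx
    simp only [Finset.coe_filter, Set.mem_ofPred_eq] at *
    refine ⟨hA.2 x hx.1 a ha b hb, ?_⟩
    rw [hp]; tauto
  · intro x hx
    simp only [Finset.coe_filter, Set.mem_ofPred_eq] at *
    refine ⟨hA.2 x hx.1 a ha b hb, ?_⟩
    rw [hp]; tauto
  · intro x _
    exact tri_tri x a b
  · intro x _
    exact tri_tri x a b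

theorem card_filter_add {A : Finset (Finset α)} (p : Finset α → Prop) [DecidablePred p] :
    (A.filter p).card + (A.filter (fun x => ¬ p x)).card = A.card :=
  Finset.card_filter_add_card_filter_not (s := A) p

theorem Flat.card_filter {A : Finset (Finset α)} (hA : Flat A) {p : Finset α → Prop}
    [DecidablePred p] (hp : Aff p) (h1 : ∃ x ∈ A, p x) (h2 : ∃ x ∈ A, ¬ p x) :
    2 * (A.filter p).card = A.card := by
  have e := hA.card_half hp h1 h2
  have f := card_filter_add (A := A) p
  omega

theorem Flat.pow_half {A : Finset (Finset α)} (hA : Flat A) {p : Finset α → Prop}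
    [DecidablePred p] (hp : Aff p) (h1 : ∃ x ∈ A, p x) (h2 : ∃ x ∈ A, ¬ p x) {d : ℕ}
    (hd : A.card = 2 ^ (d + 1)) :
    (A.filter p).card = 2 ^ d := by
  have e := hA.card_filter hp h1 h2
  rw [hd, pow_succ] at e
  omega

theorem cnt_add (A : Finset (Finset α)) (p : Finset α → Prop) [DecidablePred p] (w : ℕ) :
    cnt (A.filter p) w + cnt (A.filter (fun x => ¬ p x)) w = cnt A w := by
  unfold cnt
  have := Finset.card_filter_add_card_filter_not (s := A.filter (fun x => x.card = w)) p
  rw [← this]
  congr 2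
  · ext x; simp only [Finset.mem_filter]; tauto
  · ext x; simp only [Finset.mem_filter]; tauto

theorem cnt_mono {A B : Finset (Finset α)} (h : A ⊆ B) (w : ℕ) : cnt A w ≤ cnt B w :=
  Finset.card_le_card (Finset.filter_subset_filter _ h)

/-- erasing the coordinates in `T` -/
def era (T : Finset α) (A : Finset (Finset α)) : Finset (Finset α) := A.image (fun x => x \ T)

theorem Flat.era {A : Finset (Finset α)} (hA : Flat A) (T : Finset α) : Flat (era T A) := by
  refine ⟨hA.1.image _, ?_⟩
  intro x hx y hy z hz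
  simp only [CW.era, Finset.mem_image] at *
  obtain ⟨x', hx', rfl⟩ := hx
  obtain ⟨y', hy', rfl⟩ := hy
  obtain ⟨z', hz', rfl⟩ := hz
  exact ⟨tri x' y' z', hA.2 _ hx' _ hy' _ hz', tri_sdiff _ _ _ _⟩

theorem era_subset {A : Finset (Finset α)} {U T : Finset α} (h : ∀ x ∈ A, x ⊆ U) :
    ∀ x ∈ era T A, x ⊆ U \ T := by
  intro x hx
  simp only [era, Finset.mem_image] at hx
  obtain ⟨y, hy, rfl⟩ := hx
  exact Finset.sdiff_subset_sdiff (h y hy) (Finset.Subset.refl _)

/-- if every member meets `T` in a set determined by the rest, erasing `T` is injective -/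
theorem cnt_era {A : Finset (Finset α)} {T : Finset α}
    (hinj : ∀ x ∈ A, ∀ y ∈ A, x \ T = y \ T → x = y) {t w : ℕ}
    (ht : ∀ x ∈ A, x.card = w → (x ∩ T).card = t) :
    (era T A).card = A.card ∧ cnt A w ≤ cnt (era T A) (w - t) := by
  constructor
  · unfold era
    exact Finset.card_image_of_injOn (fun x hx y hy h => hinj x hx y hy h)
  · unfold cnt
    apply Finset.card_le_card_of_injOn (fun x => x \ T)
    · intro x hx
      simp only [Finset.coe_filter, Set.mem_ofPred_eq] at hx ⊢
      refine ⟨Finset.mem_image_of_mem _ hx.1, ?_⟩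
      have h1 := Finset.card_sdiff_add_card_inter x T
      have h2 := ht x hx.1 hx.2
      omega
    · intro x hx y hy h
      simp only [Finset.coe_filter, Set.mem_ofPred_eq] at hx hy
      exact hinj x hx.1 y hy.1 h

end Pool.Agent.H59.CW
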