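import Mathlib

namespace Pool.Agent.H59.CW

open Finset

/-- lower bound for the central binomial coefficient -/
theorem central_sq (w : ℕ) (hw : 1 ≤ w) : 16 ^ w ≤ (2 * w).choose w ^ 2 * (4 * w) := by
  induction w, hw using Nat.le_induction with
  | base => decide
  | succ w hw ih =>
    have hrec := Nat.succ_mul_centralBinom_succ w
    rw [Nat.centralBinom, Nat.centralBinom] at hrec
    set c := (2 * w).choose w with hc
    set c' := (2 * (w + 1)).choose (w + 1) with hc'
    have h1 : (w + 1) * (16 ^ (w + 1)) ≤ (w + 1) * (c' ^ 2 * (4 * (w + 1))) := by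
      calc (w + 1) * (16 ^ (w + 1)) = 16 * (w + 1) * 16 ^ w := by ring
        _ ≤ 16 * (w + 1) * (c ^ 2 * (4 * w)) := Nat.mul_le_mul_left _ ih
        _ = 16 * c ^ 2 * (4 * w * (w + 1)) := by ring
        _ ≤ 16 * c ^ 2 * ((2 * w + 1) ^ 2) := by
          apply Nat.mul_le_mul_left
          nlinarith
        _ = 4 * (2 * (2 * w + 1) * c) ^ 2 := by ring
        _ = 4 * ((w + 1) * c') ^ 2 := by rw [← hrec]
        _ = (w + 1) * (c' ^ 2 * (4 * (w + 1))) := by ring
    exact Nat.le_of_mul_le_mul_left h1 (by omega)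

theorem central_sqrt (w : ℕ) (hw : 1 ≤ w) :
    (2 : ℝ) ^ (2 * w - 1) ≤ ((2 * w).choose w : ℝ) * √(w : ℝ) := by
  have h := central_sq w hw
  have h' : (16 : ℝ) ^ w ≤ ((2 * w).choose w : ℝ) ^ 2 * (4 * w) := by exact_mod_cast h
  have h0 : (0 : ℝ) ≤ ((2 * w).choose w : ℝ) * √(w : ℝ) := by positivity
  have h1 : ((2 : ℝ) ^ (2 * w - 1)) ^ 2 ≤ (((2 * w).choose w : ℝ) * √(w : ℝ)) ^ 2 := by
    rw [mul_pow, Real.sq_sqrt (by positivity)]
    have e : (16 : ℝ) ^ w = 4 * ((2 : ℝ) ^ (2 * w - 1)) ^ 2 := by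
      rw [← pow_mul, show (16 : ℝ) = 2 ^ 4 by norm_num, ← pow_mul,
        show (4 : ℝ) = 2 ^ 2 by norm_num, ← pow_add]
      congr 1
      omega
    rw [e] at h'
    linarith
  exact (pow_le_pow_iff_left₀ (by positivity) h0 (by norm_num)).1 h1

theorem ratio_exp {x : ℝ} (h0 : 0 ≤ x) (h1 : x < 1) : 1 - x ≤ (1 + x) * Real.exp (-(2 * x)) := by
  have h := Real.hasSum_log_sub_log_of_abs_lt_one (x := x) (by rw [abs_of_nonneg h0]; exact h1)
  have h2 : 2 * x ≤ Real.log (1 + x) - Real.log (1 - x) := by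
    have := le_hasSum h 0 (fun j _ => by positivity)
    simpa using this
  have h3 : Real.log (1 - x) ≤ Real.log (1 + x) + (-(2 * x)) := by linarith
  have h4 := Real.exp_le_exp.2 h3
  rw [Real.exp_log (by linarith), Real.exp_add, Real.exp_log (by linarith)] at h4
  exact h4

theorem choose_exp (w : ℕ) (a : ℕ) (ha1 : 1 ≤ a) (ha : a ≤ w) :
    2 * ((2 * w - 1).choose (w - a) : ℝ) ≤
      ((2 * w).choose w : ℝ) * Real.exp (-((a : ℝ) * (a - 1) / w)) := by
  induction a, ha1 using Nat.le_induction with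
  | base =>
    have h1 : (2 * w).choose w = 2 * (2 * w - 1).choose (w - 1) := by
      obtain ⟨v, rfl⟩ : ∃ v, w = v + 1 := ⟨w - 1, by omega⟩
      have : (2 * (v + 1)).choose (v + 1) = (2 * v + 1).choose v + (2 * v + 1).choose (v + 1) := by
        rw [show 2 * (v + 1) = (2 * v + 1) + 1 by ring, Nat.choose_succ_succ]
      rw [this, Nat.choose_symm_half, show 2 * (v + 1) - 1 = 2 * v + 1 by omega]
      simp; ring
    rw [h1]
    simp
  | succ a ha1 ih =>
    have ih := ih (by omega)
    have hw : 0 < (w : ℝ) := by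
      have : 0 < w := by omega
      exact_mod_cast this
    have hrec := Nat.choose_succ_right_eq (2 * w - 1) (w - a - 1)
    have e1 : w - a - 1 + 1 = w - a := by omega
    have e2 : 2 * w - 1 - (w - a - 1) = w + a := by omega
    have e3 : w - (a + 1) = w - a - 1 := by omega
    rw [e1, e2] at hrec
    rw [e3]
    set P := (2 * w - 1).choose (w - a) with hP
    set Q := (2 * w - 1).choose (w - a - 1) with hQ
    have hrec' : (P : ℝ) * ((w : ℝ) - a) = Q * (w + a) := by
      have : ((w - a : ℕ) : ℝ) = (w : ℝ) - a := by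
        rw [Nat.cast_sub (by omega)]
      rw [← this]
      exact_mod_cast hrec
    have hx0 : (0 : ℝ) ≤ (a : ℝ) / w := by positivity
    have hx1 : (a : ℝ) / w < 1 := by
      rw [div_lt_one hw]
      exact_mod_cast (by omega : a < w)
    have hr := ratio_exp hx0 hx1
    have hr' : (w : ℝ) - a ≤ (w + a) * Real.exp (-(2 * (a / w))) := by
      have h5 : (w : ℝ) * (1 - (a : ℝ) / w) ≤ w * ((1 + (a : ℝ) / w) * Real.exp (-(2 * (a / w)))) :=
        mul_le_mul_of_nonneg_left hr hw.le
      have e4 : (w : ℝ) * (1 - (a : ℝ) / w) = w - a := by field_simp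
      have e5 : (w : ℝ) * ((1 + (a : ℝ) / w) * Real.exp (-(2 * (a / w)))) =
          (w + a) * Real.exp (-(2 * (a / w))) := by
        rw [← mul_assoc]
        congr 1
        field_simp
      rw [e4, e5] at h5
      exact h5
    have hwa : (0 : ℝ) < (w : ℝ) + a := by positivity
    have key : (2 * (Q : ℝ)) * (w + a) ≤ (((2 * w).choose w : ℝ) *
        Real.exp (-(((a + 1 : ℕ) : ℝ) * (((a + 1 : ℕ) : ℝ) - 1) / w))) * (w + a) := by
      calc (2 * (Q : ℝ)) * (w + a) = 2 * (P : ℝ) * (w - a) := by linarith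
        _ ≤ 2 * (P : ℝ) * ((w + a) * Real.exp (-(2 * (a / w)))) :=
          mul_le_mul_of_nonneg_left hr' (by positivity)
        _ ≤ (((2 * w).choose w : ℝ) * Real.exp (-((a : ℝ) * (a - 1) / w))) *
            ((w + a) * Real.exp (-(2 * (a / w)))) :=
          mul_le_mul_of_nonneg_right ih (by positivity)
        _ = ((2 * w).choose w : ℝ) * (Real.exp (-((a : ℝ) * (a - 1) / w)) *
            Real.exp (-(2 * (a / w)))) * (w + a) := by ring
        _ = _ := by
          rw [← Real.exp_add]
          congr 3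
          push_cast
          field_simp
          ring
    exact le_of_mul_le_mul_right key hwa

/-- the numerical estimate for the largest class -/
theorem num {w n a : ℕ} (hw : 2 ≤ w) (hn : 4 * w ≤ n + 1)
    (h : ((n : ℝ) - 2 * w) ^ 2 < (√(w : ℝ) - 1) * (a * n)) :
    2 ≤ a ∧ (a ≤ w → ((2 * w - 1).choose (w - a) : ℝ) * ((n : ℝ) - a + w) ≤
      w * ((2 * w).choose w : ℝ)) := by
  have hw2 : (2 : ℝ) ≤ w := by exact_mod_cast hw
  have hn4 : 4 * (w : ℝ) ≤ n + 1 := by exact_mod_cast hn
  set r := √(w : ℝ) with hr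
  have hr2 : r ^ 2 = w := Real.sq_sqrt (by positivity)
  have hr1 : 1 < r := by
    rw [hr, Real.lt_sqrt (by norm_num)]; linarith
  have hnpos : (0 : ℝ) < n := by linarith
  have hwpos : (0 : ℝ) < w := by linarith
  have ha0 : (0 : ℝ) ≤ a := by positivity
  -- a > r + 1
  have hs : ((w : ℝ) - 3 / 4) * n ≤ ((n : ℝ) - 2 * w) ^ 2 := by
    -- (n-2w)^2 - (w-3/4) n  with n = 4w-1+t
    obtain ⟨t, ht⟩ : ∃ t : ℝ, (n : ℝ) = 4 * w - 1 + t := ⟨n - (4 * w - 1), by ring⟩
    have ht0 : 0 ≤ t := by linarith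
    rw [ht]
    nlinarith
  have h1 : (r + 1) * ((r - 1) * n) < a * ((r - 1) * n) := by
    have e1 : (r + 1) * ((r - 1) * n) = ((w : ℝ) - 1) * n := by rw [← hr2]; ring
    rw [e1]
    have : ((w : ℝ) - 1) * n < ((w : ℝ) - 3 / 4) * n := by
      apply mul_lt_mul_of_pos_right _ hnpos; linarith
    linarith
  have hrn : 0 < (r - 1) * n := mul_pos (by linarith) hnpos
  have h2 : r + 1 < a := lt_of_mul_lt_mul_right h1 hrn.le
  refine ⟨?_, ?_⟩
  · have : (1 : ℝ) < a := by linarith
    have : 1 < a := by exact_mod_cast this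
    omega
  intro haw
  have ha1 : 1 ≤ a := by
    have : (1 : ℝ) < a := by linarith
    have : 1 < a := by exact_mod_cast this
    omega
  have hce := choose_exp w a ha1 haw
  have haw' : (a : ℝ) ≤ w := by exact_mod_cast haw
  have hc0 : (0 : ℝ) ≤ ((2 * w).choose w : ℝ) := by positivity
  -- it suffices
  have suff : Real.exp (-((a : ℝ) * (a - 1) / w)) * ((n : ℝ) - a + w) ≤ 2 * w →
      ((2 * w - 1).choose (w - a) : ℝ) * ((n : ℝ) - a + w) ≤ w * ((2 * w).choose w : ℝ) := by
    intro hyp
    have hpos : 0 ≤ (n : ℝ) - a + w := by linarith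
    have h3 := mul_le_mul_of_nonneg_right hce hpos
    have h4 := mul_le_mul_of_nonneg_left hyp hc0
    nlinarith
  apply suff
  have hexp1 : Real.exp (-1) < 0.3678794412 := Real.exp_neg_one_lt_d9
  rcases le_or_gt (n : ℝ) (4 * w) with hle | hgt
  · have h3 : 1 ≤ (a : ℝ) * (a - 1) / w := by
      rw [le_div_iff₀ hwpos, one_mul, ← hr2]
      nlinarith
    have h4 : Real.exp (-((a : ℝ) * (a - 1) / w)) ≤ Real.exp (-1) :=
      Real.exp_le_exp.2 (by linarith)
    have hpos : 0 ≤ (n : ℝ) - a + w := by linarith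
    calc Real.exp (-((a : ℝ) * (a - 1) / w)) * ((n : ℝ) - a + w)
        ≤ 0.3678794412 * (5 * w) :=
          mul_le_mul (h4.trans hexp1.le) (by linarith) hpos (by norm_num)
      _ ≤ 2 * w := by linarith
  · -- g = (n - 2w)^2/(n w)
    set y : ℝ := n / w with hy
    have hny : (n : ℝ) = y * w := by rw [hy]; field_simp
    have hy4 : 4 < y := by rw [hy, lt_div_iff₀ hwpos]; exact hgt
    set g : ℝ := (y - 2) ^ 2 / y with hg
    have hypos : 0 < y := by linarith
    have hgy : g * y = (y - 2) ^ 2 := by rw [hg]; field_simp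
    have hg1 : 1 + 3 / 4 * (y - 4) ≤ g := by
      rw [hg, le_div_iff₀ hypos]
      nlinarith
    have hgge : 1 ≤ g := by linarith
    have h3 : g * w < (r - 1) * a := by
      have e1 : ((n : ℝ) - 2 * w) ^ 2 = (g * w) * n := by
        rw [hny]
        calc (y * w - 2 * w) ^ 2 = ((y - 2) ^ 2) * w ^ 2 := by ring
          _ = (g * y) * w ^ 2 := by rw [hgy]
          _ = g * w * (y * w) := by ring
      rw [e1] at h
      have : (g * w) * n < ((r - 1) * a) * n := by linarith
      exact lt_of_mul_lt_mul_right this hnpos.le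
    have h4 : g * (r + 1) < a := by
      have : g * (r + 1) * (r - 1) < a * (r - 1) := by
        calc g * (r + 1) * (r - 1) = g * w - g := by rw [← hr2]; ring
          _ < g * w := by linarith
          _ < (r - 1) * a := h3
          _ = a * (r - 1) := by ring
      exact lt_of_mul_lt_mul_right this (by linarith)
    have h5 : g * r ≤ (a : ℝ) - 1 := by nlinarith
    have h6 : g ≤ (a : ℝ) * (a - 1) / w := by
      rw [le_div_iff₀ hwpos, ← hr2]
      have h7 : g * (r + 1) * (g * r) ≤ a * (a - 1) :=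
        mul_le_mul h4.le h5 (by positivity) ha0
      have h8 : g * r ^ 2 ≤ g * (r + 1) * (g * r) := by
        have : g * (r + 1) * (g * r) = g * g * (r * (r + 1)) := by ring
        rw [this]
        have h9 : g * r ^ 2 ≤ g * g * r ^ 2 := by
          apply mul_le_mul_of_nonneg_right _ (by positivity)
          nlinarith
        have h10 : g * g * r ^ 2 ≤ g * g * (r * (r + 1)) := by
          apply mul_le_mul_of_nonneg_left _ (by positivity)
          nlinarith
        linarith
      linarith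
    have h7 : Real.exp (-((a : ℝ) * (a - 1) / w)) ≤ Real.exp (-g) :=
      Real.exp_le_exp.2 (by linarith)
    have h8 : Real.exp (-g) * (n + w) ≤ 2 * w := by
      have h9 : g ≤ Real.exp (g - 1) := by
        have := Real.add_one_le_exp (g - 1)
        linarith
      have h10 : Real.exp (-g) * Real.exp (g - 1) = Real.exp (-1) := by
        rw [← Real.exp_add]; congr 1; ring
      have h11 : Real.exp (-g) * g ≤ 0.3678794412 := by
        calc Real.exp (-g) * g ≤ Real.exp (-g) * Real.exp (g - 1) :=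
              mul_le_mul_of_nonneg_left h9 (Real.exp_pos _).le
          _ = Real.exp (-1) := h10
          _ ≤ _ := hexp1.le
      have h12 : (n : ℝ) + w ≤ 5 * (g * w) := by
        rw [hny]
        have : y + 1 ≤ 5 * g := by linarith
        nlinarith
      calc Real.exp (-g) * (n + w) ≤ Real.exp (-g) * (5 * (g * w)) :=
            mul_le_mul_of_nonneg_left h12 (Real.exp_pos _).le
        _ = 5 * w * (Real.exp (-g) * g) := by ring
        _ ≤ 5 * w * 0.3678794412 := mul_le_mul_of_nonneg_left h11 (by positivity)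
        _ ≤ 2 * w := by linarith
    calc Real.exp (-((a : ℝ) * (a - 1) / w)) * ((n : ℝ) - a + w)
        ≤ Real.exp (-g) * (n + w) :=
          mul_le_mul h7 (by linarith) (by linarith) (Real.exp_pos _).le
      _ ≤ 2 * w := h8

end Pool.Agent.H59.CW
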