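import Pool.Agent.H59.CW.Cls
import Pool.Agent.H59.CW.Num

namespace Pool.Agent.H59.CW

open Finset

set_option linter.unusedSectionVars false

variable {α : Type*} [DecidableEq α]

/-- the case of large length -/
theorem big {w : ℕ} (hw : 2 ≤ w) (hQ : ∀ v < w, QB α v) (U : Finset α)
    (A : Finset (Finset α)) (hA : Flat A)
    (hU : ∀ x ∈ A, x ⊆ U) (hd : A.card = 2 ^ (2 * w - 1)) (hE : ∀ i ∈ U, Ess A i)
    (hopp : ∀ j ∈ U, ∀ l ∈ U, j ≠ l → ¬ ∀ x ∈ A, ¬ (j ∈ x ↔ l ∈ x))
    (ih : ∀ (U' : Finset α) (B : Finset (Finset α)), Flat B → (∀ x ∈ B, x ⊆ U') →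
      B.card = 2 ^ (2 * w - 1) → U'.card < U.card → cnt B w ≤ (2 * w).choose w)
    (hn : 4 * w ≤ U.card + 1) :
    cnt A w ≤ (2 * w).choose w := by
  by_contra hcon
  push Not at hcon
  set c := (2 * w).choose w with hc
  have hUne : U.Nonempty := Finset.card_pos.1 (by omega)
  obtain ⟨i, hiU, hmax⟩ := Finset.exists_max_image U
    (fun i => (U.filter (fun j => Par A i j)).card) hUne
  set K := U.filter (fun j => Par A i j) with hK
  have hV : ((U ×ˢ U).filter (fun p => Par A p.1 p.2)).card ≤ K.card * U.card := by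
    have e1 : ((U ×ˢ U).filter (fun p => Par A p.1 p.2)).card =
        ∑ j ∈ U, (U.filter (fun l => Par A j l)).card := by
      rw [Finset.card_filter, Finset.sum_product]
      apply Finset.sum_congr rfl
      intro j _
      rw [Finset.card_filter]
    rw [e1]
    calc ∑ j ∈ U, (U.filter (fun l => Par A j l)).card ≤ ∑ j ∈ U, K.card :=
          Finset.sum_le_sum hmax
      _ = K.card * U.card := by rw [Finset.sum_const, smul_eq_mul, mul_comm]
  have hVpos : 0 < ((U ×ˢ U).filter (fun p => Par A p.1 p.2)).card := by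
    apply Finset.card_pos.2
    exact ⟨(i, i), by simp only [Finset.mem_filter, Finset.mem_product]
                      exact ⟨⟨hiU, hiU⟩, fun x _ => Iff.rfl⟩⟩
  have hcan := cantelli hA hU hE hopp w _ rfl (by exact_mod_cast hVpos)
  set V := ((U ×ˢ U).filter (fun p => Par A p.1 p.2)).card with hVdef
  rw [hd] at hcan
  have hcan' : (cnt A w : ℝ) * (((U.card : ℝ) - 2 * w) ^ 2 + V) ≤ (2 : ℝ) ^ (2 * w - 1) * V := by
    exact_mod_cast hcan
  have hsq := central_sqrt w (by omega)
  have hVr : (0 : ℝ) < V := by exact_mod_cast hVpos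
  have hcpos : (0 : ℝ) < c := by
    have : 0 < c := Nat.choose_pos (by omega)
    exact_mod_cast this
  have hcon' : (c : ℝ) < cnt A w := by exact_mod_cast hcon
  have h1 : (c : ℝ) * (((U.card : ℝ) - 2 * w) ^ 2 + V) < c * (√(w : ℝ) * V) := by
    calc (c : ℝ) * (((U.card : ℝ) - 2 * w) ^ 2 + V)
        < (cnt A w : ℝ) * (((U.card : ℝ) - 2 * w) ^ 2 + V) := by
          apply mul_lt_mul_of_pos_right hcon'
          positivity
      _ ≤ (2 : ℝ) ^ (2 * w - 1) * V := hcan'
      _ ≤ ((c : ℝ) * √(w : ℝ)) * V := mul_le_mul_of_nonneg_right hsq hVr.le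
      _ = _ := by ring
  have h2 : ((U.card : ℝ) - 2 * w) ^ 2 + V < √(w : ℝ) * V := lt_of_mul_lt_mul_left h1 hcpos.le
  have hr1 : 1 ≤ √(w : ℝ) := by
    rw [Real.one_le_sqrt]
    have : (2 : ℝ) ≤ w := by exact_mod_cast hw
    linarith
  have h3 : ((U.card : ℝ) - 2 * w) ^ 2 < (√(w : ℝ) - 1) * (K.card * U.card) := by
    have h4 : (V : ℝ) ≤ K.card * U.card := by exact_mod_cast hV
    have h5 : (√(w : ℝ) - 1) * V ≤ (√(w : ℝ) - 1) * (K.card * U.card) :=
      mul_le_mul_of_nonneg_left h4 (by linarith)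
    linarith
  obtain ⟨ha2, hnum⟩ := num hw hn h3
  have hKU : K.card ≤ U.card := Finset.card_le_card (Finset.filter_subset _ _)
  have hD : A.card = 2 ^ (2 * w - 2 + 1) := by
    rw [hd]; congr 1; omega
  have hD' : 2 * w - 2 + 1 = 2 * w - 1 := by omega
  have hsw := swap_bound (w := w) (D := 2 * w - 2) (c := c) hA hU hD hiU (hE i hiU) hK ha2
    (by rw [hD']; exact ih)
  have hadd := cnt_add A (fun x => i ∈ x) w
  have hnK : 0 < U.card - K.card + w := by omega
  rcases Nat.lt_or_ge w K.card with hlt | hge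
  · have h0 := class_one_zero (w := w) hK hlt
    rw [h0, zero_add] at hadd
    rw [hadd] at hsw
    have h6 : c * (U.card - K.card) ≤ c * (U.card - K.card + w) :=
      Nat.mul_le_mul_left _ (by omega)
    have h7 : c * (U.card - K.card + w) < cnt A w * (U.card - K.card + w) :=
      Nat.mul_lt_mul_of_pos_right hcon hnK
    omega
  · have hcl := class_one (w := w) (D := 2 * w - 2) hA hD (hE i hiU) hK
      (hQ _ (by omega)) (by omega)
    rw [hD'] at hcl
    have hnum' := hnum hge
    have hcast : ((U.card - K.card + w : ℕ) : ℝ) = (U.card : ℝ) - K.card + w := by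
      push_cast [Nat.cast_sub hKU]; ring
    rw [← hcast] at hnum'
    have h8 : (2 * w - 1).choose (w - K.card) * (U.card - K.card + w) ≤ w * c := by
      exact_mod_cast hnum'
    have h9 : cnt A w * (U.card - K.card + w) ≤ c * (U.card - K.card + w) := by
      rw [← hadd, add_mul]
      calc cnt (A.filter (fun x => i ∈ x)) w * (U.card - K.card + w) +
            cnt (A.filter (fun x => i ∉ x)) w * (U.card - K.card + w)
          ≤ (2 * w - 1).choose (w - K.card) * (U.card - K.card + w) +
            c * (U.card - K.card) := Nat.add_le_add (Nat.mul_le_mul_right _ hcl) hsw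
        _ ≤ w * c + c * (U.card - K.card) := Nat.add_le_add_right h8 _
        _ = c * (U.card - K.card + w) := by ring
    have h10 := Nat.le_of_mul_le_mul_right h9 hnK
    omega

end Pool.Agent.H59.CW
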