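import Pool.Agent.H59.CW.Step

namespace Pool.Agent.H59.CW

open Finset

set_option linter.unusedSectionVars false

variable {α : Type*} [DecidableEq α]

/-- the sign of coordinate `i` -/
def chi (i : α) (x : Finset α) : ℤ := if i ∈ x then -1 else 1

theorem sum_chi {U x : Finset α} (h : x ⊆ U) : ∑ i ∈ U, chi i x = (U.card : ℤ) - 2 * x.card := by
  unfold chi
  have h1 : ∀ i ∈ U, (if i ∈ x then (-1 : ℤ) else 1) = 1 - 2 * (if i ∈ x then 1 else 0) := by
    intro i _
    split_ifs <;> norm_num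
  rw [Finset.sum_congr rfl h1, Finset.sum_sub_distrib, ← Finset.mul_sum]
  rw [Finset.sum_const, Finset.sum_ite_mem, Finset.inter_eq_right.2 h, Finset.sum_const]
  simp

theorem sum_aff {A : Finset (Finset α)} (hA : Flat A) {p : Finset α → Prop} [DecidablePred p]
    (hp : Aff p) (h1 : ∃ x ∈ A, p x) (h2 : ∃ x ∈ A, ¬ p x) :
    ∑ x ∈ A, (if p x then (-1 : ℤ) else 1) = 0 := by
  rw [← Finset.sum_filter_add_sum_filter_not A p]
  have e := hA.card_half hp h1 h2
  have a1 : ∑ x ∈ A.filter p, (if p x then (-1 : ℤ) else 1) = -((A.filter p).card : ℤ) := by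
    rw [Finset.sum_congr rfl (g := fun _ => (-1 : ℤ))]
    · simp
    · intro x hx
      simp only [Finset.mem_filter] at hx
      simp [hx.2]
  have a2 : ∑ x ∈ A.filter (fun x => ¬ p x), (if p x then (-1 : ℤ) else 1) =
      ((A.filter (fun x => ¬ p x)).card : ℤ) := by
    rw [Finset.sum_congr rfl (g := fun _ => (1 : ℤ))]
    · simp
    · intro x hx
      simp only [Finset.mem_filter] at hx
      simp [hx.2]
  rw [a1, a2, e]
  ring

/-- parallel pairs -/
def Par (A : Finset (Finset α)) (i j : α) : Prop := ∀ x ∈ A, (i ∈ x ↔ j ∈ x)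

instance (A : Finset (Finset α)) (i j : α) : Decidable (Par A i j) :=
  inferInstanceAs (Decidable (∀ x ∈ A, (i ∈ x ↔ j ∈ x)))

theorem sum_chi_chi {A : Finset (Finset α)} (hA : Flat A) (i j : α)
    (ho : i ≠ j → ¬ ∀ x ∈ A, ¬ (i ∈ x ↔ j ∈ x)) :
    ∑ x ∈ A, chi i x * chi j x = if Par A i j then (A.card : ℤ) else 0 := by
  have h0 : ∀ x ∈ A, chi i x * chi j x = if ¬ (i ∈ x ↔ j ∈ x) then (-1 : ℤ) else 1 := by
    intro x _
    unfold chi
    by_cases h1 : i ∈ x <;> by_cases h2 : j ∈ x <;> simp [h1, h2]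
  rw [Finset.sum_congr rfl h0]
  split_ifs with h
  · rw [Finset.sum_congr rfl (g := fun _ => (1 : ℤ))]
    · simp
    · intro x hx
      have := h x hx
      simp [this]
  · have hij : i ≠ j := by
      rintro rfl
      exact h (fun x _ => Iff.rfl)
    have h1 : ∃ x ∈ A, ¬ (i ∈ x ↔ j ∈ x) := by
      by_contra hc
      push Not at hc
      exact h hc
    have h2 : ∃ x ∈ A, ¬ ¬ (i ∈ x ↔ j ∈ x) := by
      by_contra hc
      push Not at hc
      apply ho hij
      intro x hx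
      have := hc x hx
      tauto
    exact sum_aff hA (aff_split i j) h1 h2

/-- Cantelli's inequality -/
theorem cantelli {A : Finset (Finset α)} (hA : Flat A) {U : Finset α} (hU : ∀ x ∈ A, x ⊆ U)
    (hE : ∀ i ∈ U, Ess A i)
    (hopp : ∀ j ∈ U, ∀ l ∈ U, j ≠ l → ¬ ∀ x ∈ A, ¬ (j ∈ x ↔ l ∈ x)) (w : ℕ)
    (V : ℤ) (hV : V = (((U ×ˢ U).filter (fun p => Par A p.1 p.2)).card : ℤ)) (hpos : 0 < V) :
    (cnt A w : ℤ) * (((U.card : ℤ) - 2 * w) ^ 2 + V) ≤ A.card * V := by
  set s : ℤ := (U.card : ℤ) - 2 * w with hs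
  set S : Finset α → ℤ := fun x => ∑ i ∈ U, chi i x with hS
  have h1 : ∑ x ∈ A, S x = 0 := by
    rw [hS, Finset.sum_comm]
    apply Finset.sum_eq_zero
    intro i hi
    exact sum_aff hA (aff_mem i) (hE i hi).1 (by
      obtain ⟨x, hx, h⟩ := (hE i hi).2
      exact ⟨x, hx, h⟩)
  have h2 : ∑ x ∈ A, (S x) ^ 2 = A.card * V := by
    have e1 : ∀ x ∈ A, (S x) ^ 2 = ∑ p ∈ U ×ˢ U, chi p.1 x * chi p.2 x := by
      intro x _
      rw [hS, sq, Finset.sum_mul_sum, Finset.sum_product]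
    rw [Finset.sum_congr rfl e1, Finset.sum_comm]
    have e2 : ∀ p ∈ U ×ˢ U, ∑ x ∈ A, chi p.1 x * chi p.2 x =
        if Par A p.1 p.2 then (A.card : ℤ) else 0 := by
      rintro ⟨i, j⟩ hp
      rw [Finset.mem_product] at hp
      exact sum_chi_chi hA i j (hopp i hp.1 j hp.2)
    rw [Finset.sum_congr rfl e2, ← Finset.sum_filter, Finset.sum_const, hV]
    simp [mul_comm]
  have h3 : ∑ x ∈ A, (s * S x + V) ^ 2 = A.card * V * (s ^ 2 + V) := by
    have : ∀ x ∈ A, (s * S x + V) ^ 2 = s ^ 2 * (S x) ^ 2 + 2 * s * V * S x + V ^ 2 := by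
      intro x _; ring
    rw [Finset.sum_congr rfl this, Finset.sum_add_distrib, Finset.sum_add_distrib,
      ← Finset.mul_sum, ← Finset.mul_sum, h1, h2, Finset.sum_const]
    simp only [nsmul_eq_mul]
    ring
  have h4 : ∑ x ∈ A.filter (fun x => x.card = w), (s * S x + V) ^ 2 ≤
      ∑ x ∈ A, (s * S x + V) ^ 2 := by
    apply Finset.sum_le_sum_of_subset_of_nonneg (Finset.filter_subset _ _)
    intro x _ _
    positivity
  have h5 : ∑ x ∈ A.filter (fun x => x.card = w), (s * S x + V) ^ 2 =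
      (cnt A w : ℤ) * (s ^ 2 + V) ^ 2 := by
    rw [Finset.sum_congr rfl (g := fun _ => (s ^ 2 + V) ^ 2)]
    · rw [Finset.sum_const, cnt]; simp
    · intro x hx
      simp only [Finset.mem_filter] at hx
      have : S x = s := by
        simp only [hS]
        rw [sum_chi (hU x hx.1), hx.2, hs]
      rw [this]; ring
  rw [h5, h3] at h4
  have h6 : 0 < s ^ 2 + V := by positivity
  have h7 : (cnt A w : ℤ) * (s ^ 2 + V) * (s ^ 2 + V) ≤ A.card * V * (s ^ 2 + V) := by
    calc (cnt A w : ℤ) * (s ^ 2 + V) * (s ^ 2 + V) = (cnt A w : ℤ) * (s ^ 2 + V) ^ 2 := by ring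
      _ ≤ _ := h4
  exact le_of_mul_le_mul_right h7 h6

end Pool.Agent.H59.CW
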