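import Pool.Agent.H59.CW.Cant

namespace Pool.Agent.H59.CW

open Finset

set_option linter.unusedSectionVars false

variable {α : Type*} [DecidableEq α]

theorem symmDiff_inv (x z : Finset α) : symmDiff (symmDiff x z) z = x := by
  ext t; simp only [Finset.mem_symmDiff]; tauto

/-- adding a new direction -/
theorem Flat.extend {B : Finset (Finset α)} (hB : Flat B) (z : Finset α) :
    Flat (B ∪ B.image (fun x => symmDiff x z)) := by
  refine ⟨hB.1.mono Finset.subset_union_left, ?_⟩
  have key : ∀ x ∈ B ∪ B.image (fun x => symmDiff x z), x ∈ B ∨ symmDiff x z ∈ B := by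
    intro x hx
    rw [Finset.mem_union, Finset.mem_image] at hx
    rcases hx with h | ⟨y, hy, rfl⟩
    · exact Or.inl h
    · right; rw [symmDiff_inv]; exact hy
  have key2 : ∀ x, x ∈ B ∨ symmDiff x z ∈ B → x ∈ B ∪ B.image (fun x => symmDiff x z) := by
    intro x hx
    rw [Finset.mem_union, Finset.mem_image]
    rcases hx with h | h
    · exact Or.inl h
    · right; exact ⟨_, h, symmDiff_inv x z⟩
  intro x hx y hy u hu
  apply key2
  have e1 : ∀ x y u : Finset α, tri (symmDiff x z) y u = symmDiff (tri x y u) z := by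
    intro x y u
    ext t; simp only [mem_tri, Finset.mem_symmDiff]
    by_cases h1 : t ∈ x <;> by_cases h2 : t ∈ y <;> by_cases h3 : t ∈ u <;>
      by_cases h4 : t ∈ z <;> simp [h1, h2, h3, h4]
  have e2 : ∀ x y u : Finset α, tri x (symmDiff y z) u = symmDiff (tri x y u) z := by
    intro x y u
    ext t; simp only [mem_tri, Finset.mem_symmDiff]
    by_cases h1 : t ∈ x <;> by_cases h2 : t ∈ y <;> by_cases h3 : t ∈ u <;>
      by_cases h4 : t ∈ z <;> simp [h1, h2, h3, h4]
  have e3 : ∀ x y u : Finset α, tri x y (symmDiff u z) = symmDiff (tri x y u) z := by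
    intro x y u
    ext t; simp only [mem_tri, Finset.mem_symmDiff]
    by_cases h1 : t ∈ x <;> by_cases h2 : t ∈ y <;> by_cases h3 : t ∈ u <;>
      by_cases h4 : t ∈ z <;> simp [h1, h2, h3, h4]
  rcases key x hx with h1 | h1 <;> rcases key y hy with h2 | h2 <;> rcases key u hu with h3 | h3
  · left; exact hB.2 x h1 y h2 u h3
  · right
    rw [← e3]; exact hB.2 x h1 y h2 _ h3
  · right
    rw [← e2]; exact hB.2 x h1 _ h2 u h3
  · left
    have := hB.2 x h1 _ h2 _ h3
    rw [e2, e3, symmDiff_inv] at this
    exact this
  · right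
    rw [← e1]; exact hB.2 _ h1 y h2 u h3
  · left
    have := hB.2 _ h1 _ h2 _ h3
    rw [e1, e3, symmDiff_inv] at this
    exact this
  · left
    have := hB.2 _ h1 _ h2 _ h3
    rw [e1, e2, symmDiff_inv] at this
    exact this
  · right
    have := hB.2 _ h1 _ h2 _ h3
    rw [e1, e2, e3, symmDiff_inv] at this
    exact this

theorem card_symmDiff_pair {x : Finset α} {i j : α} (hi : i ∉ x) (hj : j ∈ x) :
    (symmDiff x {i, j}).card = x.card := by
  have : symmDiff x {i, j} = insert i (x.erase j) := by
    ext t
    rw [mem_symmDiff_pair]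
    simp only [Finset.mem_insert, Finset.mem_erase]
    by_cases h1 : t = i
    · subst h1; simp [hi]
    by_cases h2 : t = j
    · subst h2; simp [hj, h1]
    simp [h1, h2]
  rw [this, Finset.card_insert_of_notMem (by simp [hi]), Finset.card_erase_of_mem hj]
  have : 0 < x.card := Finset.card_pos.2 ⟨j, hj⟩
  omega

theorem Flat.card_extend {B : Finset (Finset α)} {i j : α} (hi : ∀ x ∈ B, i ∉ x) :
    (B ∪ B.image (fun x => symmDiff x {i, j})).card = 2 * B.card := by
  rw [Finset.card_union_of_disjoint, Finset.card_image_of_injective, two_mul]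
  · intro x y h
    have h' : symmDiff x {i, j} = symmDiff y {i, j} := h
    rw [← symmDiff_inv x {i, j}, h', symmDiff_inv]
  · rw [Finset.disjoint_left]
    intro x hx hx'
    rw [Finset.mem_image] at hx'
    obtain ⟨y, hy, rfl⟩ := hx'
    have h1 := hi _ hx
    have h2 := hi _ hy
    rw [mem_symmDiff_pair] at h1
    simp [h2] at h1

/-- the swap bound -/
theorem swap_bound {w D c : ℕ} {U K : Finset α} {A : Finset (Finset α)} (hA : Flat A)
    (hU : ∀ x ∈ A, x ⊆ U) (hd : A.card = 2 ^ (D + 1)) {i : α} (hiU : i ∈ U)
    (hE : Ess A i) (hK : K = U.filter (fun j => Par A i j)) (hK2 : 2 ≤ K.card)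
    (ih : ∀ (U' : Finset α) (B : Finset (Finset α)), Flat B → (∀ x ∈ B, x ⊆ U') →
      B.card = 2 ^ (D + 1) → U'.card < U.card → cnt B w ≤ c) :
    cnt (A.filter (fun x => i ∉ x)) w * (U.card - K.card + w) ≤ c * (U.card - K.card) := by
  set B := A.filter (fun x => i ∉ x) with hB
  have hfB : Flat B := hA.filter (aff_mem i).not hE.2
  have hcB : B.card = 2 ^ D := hE.card_not_mem hA hd
  have hiK : i ∈ K := by rw [hK, Finset.mem_filter]; exact ⟨hiU, fun x _ => Iff.rfl⟩
  have hKU : K ⊆ U := by rw [hK]; exact Finset.filter_subset _ _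
  have hBU : ∀ x ∈ B, x ⊆ U \ K := by
    intro x hx t ht
    simp only [hB, Finset.mem_filter] at hx
    rw [Finset.mem_sdiff]
    refine ⟨hU x hx.1 ht, ?_⟩
    rw [hK, Finset.mem_filter]
    rintro ⟨_, hp⟩
    exact hx.2 ((hp x hx.1).2 ht)
  have hcard : (U \ K).card = U.card - K.card := Finset.card_sdiff_of_subset hKU
  have key : ∀ j ∈ U \ K, cnt B w + ((B.filter (fun x => x.card = w)).filter
      (fun x => j ∈ x)).card ≤ c := by
    intro j hj
    have hjK : j ∉ K := (Finset.mem_sdiff.1 hj).2
    have hij : i ≠ j := by rintro rfl; exact hjK hiK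
    have h1 := ih (insert i (U \ K)) (B ∪ B.image (fun x => symmDiff x {i, j}))
      (hfB.extend _) (by
        intro x hx
        rw [Finset.mem_union, Finset.mem_image] at hx
        rcases hx with h | ⟨y, hy, rfl⟩
        · exact (hBU x h).trans (Finset.subset_insert _ _)
        · intro t ht
          rw [mem_symmDiff_pair] at ht
          rw [Finset.mem_insert]
          by_cases h1 : t = i
          · exact Or.inl h1
          · right
            by_cases h2 : t = j
            · subst h2; exact hj
            · simp only [h1, h2, or_self, if_false] at ht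
              exact hBU y hy ht) (by
        rw [Flat.card_extend (fun x hx => (Finset.mem_filter.1 hx).2), hcB, pow_succ, mul_comm])
      (by
        have h3 : (insert i (U \ K)).card ≤ (U \ K).card + 1 := Finset.card_insert_le _ _
        have h4 : K.card ≤ U.card := Finset.card_le_card hKU
        omega)
    refine le_trans ?_ h1
    unfold cnt
    have h5 : ((B.filter (fun x => x.card = w)).filter (fun x => j ∈ x)).card =
        (((B.filter (fun x => x.card = w)).filter (fun x => j ∈ x)).image
          (fun x => symmDiff x {i, j})).card := by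
      rw [Finset.card_image_of_injective]
      intro x y h
      have h' : symmDiff x {i, j} = symmDiff y {i, j} := h
      rw [← symmDiff_inv x {i, j}, h', symmDiff_inv]
    rw [h5, ← Finset.card_union_of_disjoint]
    · apply Finset.card_le_card
      intro x hx
      rw [Finset.mem_union, Finset.mem_image] at hx
      rw [Finset.mem_filter, Finset.mem_union, Finset.mem_image]
      rcases hx with h | ⟨y, hy, rfl⟩
      · rw [Finset.mem_filter] at h
        exact ⟨Or.inl h.1, h.2⟩
      · simp only [Finset.mem_filter] at hy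
        refine ⟨Or.inr ⟨y, hy.1.1, rfl⟩, ?_⟩
        rw [card_symmDiff_pair (Finset.mem_filter.1 hy.1.1).2 hy.2]
        exact hy.1.2
    · rw [Finset.disjoint_left]
      intro x hx hx'
      rw [Finset.mem_image] at hx'
      obtain ⟨y, hy, rfl⟩ := hx'
      simp only [Finset.mem_filter] at hx hy
      have h1 := (Finset.mem_filter.1 hx.1).2
      have h2 := (Finset.mem_filter.1 hy.1.1).2
      rw [mem_symmDiff_pair] at h1
      simp [h2] at h1
  have hsum := Finset.sum_le_sum key
  rw [Finset.sum_add_distrib, Finset.sum_const, Finset.sum_const, hcard, smul_eq_mul,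
    smul_eq_mul] at hsum
  have hdc : ∑ j ∈ U \ K, ((B.filter (fun x => x.card = w)).filter (fun x => j ∈ x)).card =
      cnt B w * w := by
    have e1 : ∀ j ∈ U \ K, ((B.filter (fun x => x.card = w)).filter (fun x => j ∈ x)).card =
        ∑ x ∈ B.filter (fun x => x.card = w), if j ∈ x then 1 else 0 := by
      intro j _
      rw [Finset.card_filter]
    rw [Finset.sum_congr rfl e1, Finset.sum_comm, cnt, Finset.card_eq_sum_ones, Finset.sum_mul]
    apply Finset.sum_congr rfl
    intro x hx
    rw [Finset.mem_filter] at hx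
    rw [Finset.sum_ite_mem, Finset.inter_eq_right.2 (hBU x hx.1), Finset.sum_const, hx.2]
    simp
  rw [hdc] at hsum
  calc cnt B w * (U.card - K.card + w) = (U.card - K.card) * cnt B w + cnt B w * w := by ring
    _ ≤ (U.card - K.card) * c := hsum
    _ = c * (U.card - K.card) := mul_comm _ _

/-- members containing a parallel class -/
theorem class_one {w D : ℕ} {U K : Finset α} {A : Finset (Finset α)} (hA : Flat A)
    (hd : A.card = 2 ^ (D + 1)) {i : α}
    (hE : Ess A i) (hK : K = U.filter (fun j => Par A i j))
    (hQ : QB α (w - K.card)) (hw : 2 * (w - K.card) ≤ D + 1) :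
    cnt (A.filter (fun x => i ∈ x)) w ≤ (D + 1).choose (w - K.card) := by
  apply cell_bound' K K hQ _ (hA.filter (aff_mem i) hE.1) (hE.card_mem hA hd) hw
  intro x hx
  rw [Finset.mem_filter] at hx
  rw [Finset.inter_eq_right]
  intro t ht
  rw [hK, Finset.mem_filter] at ht
  exact (ht.2 x hx.1).1 hx.2

theorem class_one_zero {w : ℕ} {U K : Finset α} {A : Finset (Finset α)} {i : α}
    (hK : K = U.filter (fun j => Par A i j)) (hw : w < K.card) :
    cnt (A.filter (fun x => i ∈ x)) w = 0 := by
  unfold cnt
  rw [Finset.card_eq_zero]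
  apply Finset.filter_eq_empty_iff.2
  intro x hx hc
  rw [Finset.mem_filter] at hx
  have : K ⊆ x := by
    intro t ht
    rw [hK, Finset.mem_filter] at ht
    exact (ht.2 x hx.1).1 hx.2
  have := Finset.card_le_card this
  omega

end Pool.Agent.H59.CW
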