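import Pool.Agent.H59.CW.Step

namespace Pool.Agent.H59.CW

open Finset

set_option linter.unusedSectionVars false

variable {α : Type*} [DecidableEq α]

instance (A : Finset (Finset α)) (z : Finset α) : Decidable (Per A z) :=
  inferInstanceAs (Decidable (∀ x ∈ A, symmDiff x z ∈ A))

theorem Per.filter_not {A : Finset (Finset α)} {j a b : α} (h : Per A {a, b}) (ha : j ≠ a)
    (hb : j ≠ b) : Per (A.filter (fun x => j ∉ x)) {a, b} := by
  intro x hx
  simp only [Finset.mem_filter] at hx ⊢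
  refine ⟨h x hx.1, ?_⟩
  rw [mem_symmDiff_pair]
  simp [ha, hb, hx.2]

theorem Per.ess {A : Finset (Finset α)} (hA : Flat A) {a b : α} (h : Per A {a, b}) :
    Ess A a := by
  obtain ⟨x, hx⟩ := hA.1
  have h1 := h x hx
  have h2 : a ∈ symmDiff x {a, b} ↔ a ∉ x := by rw [mem_symmDiff_pair]; simp
  by_cases ha : a ∈ x
  · exact ⟨⟨x, hx, ha⟩, ⟨_, h1, by tauto⟩⟩
  · exact ⟨⟨_, h1, by tauto⟩, ⟨x, hx, ha⟩⟩

theorem pow_le_card (T : Finset α) (f : α → α) (A : Finset (Finset α)) (hA : Flat A)
    (h1 : ∀ j ∈ T, Per A {j, f j}) (h2 : ∀ j ∈ T, f j ∉ T) : 2 ^ T.card ≤ A.card := by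
  induction T using Finset.induction_on generalizing A with
  | empty =>
    simp only [Finset.card_empty, pow_zero]
    exact hA.1.card_pos
  | insert j T hj ih =>
    have hE : Ess A j := (h1 j (Finset.mem_insert_self _ _)).ess hA
    have hf : Flat (A.filter (fun x => j ∉ x)) := hA.filter (aff_mem j).not hE.2
    have := ih (A.filter (fun x => j ∉ x)) hf (by
      intro t ht
      have h3 : j ≠ t := by rintro rfl; exact hj ht
      have h4 : j ≠ f t := by
        intro h
        exact h2 t (Finset.mem_insert_of_mem ht) (by rw [← h]; exact Finset.mem_insert_self _ _)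
      exact (h1 t (Finset.mem_insert_of_mem ht)).filter_not h3 h4) (by
      intro t ht h
      exact h2 t (Finset.mem_insert_of_mem ht) (Finset.mem_insert_of_mem h))
    have hc := hA.card_filter (aff_mem j).not hE.2 (by
      obtain ⟨x, hx, hi⟩ := hE.1
      exact ⟨x, hx, by simpa using hi⟩)
    rw [Finset.card_insert_of_notMem hj, pow_succ]
    omega

/-- number of ordered series pairs -/
theorem ser_count (U : Finset α) (D : ℕ) (A : Finset (Finset α)) (hA : Flat A)
    (hd : A.card = 2 ^ D) :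
    ((U ×ˢ U).filter (fun p => p.1 ≠ p.2 ∧ Per A {p.1, p.2})).card ≤ D * (D + 1) := by
  induction D generalizing A with
  | zero =>
    simp only [pow_zero] at hd
    obtain ⟨x, rfl⟩ := Finset.card_eq_one.1 hd
    simp only [Nat.zero_mul, Nat.le_zero, Finset.card_eq_zero]
    apply Finset.filter_eq_empty_iff.2
    rintro ⟨a, b⟩ _ ⟨h1, h2⟩
    have h3 := h2 x (Finset.mem_singleton_self _)
    rw [Finset.mem_singleton] at h3
    have h4 : a ∈ symmDiff x {a, b} ↔ a ∉ x := by rw [mem_symmDiff_pair]; simp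
    rw [h3] at h4
    tauto
  | succ D ih =>
    by_cases hne : ∃ p ∈ U ×ˢ U, p.1 ≠ p.2 ∧ Per A {p.1, p.2}
    swap
    · have : (U ×ˢ U).filter (fun p => p.1 ≠ p.2 ∧ Per A {p.1, p.2}) = ∅ := by
        apply Finset.filter_eq_empty_iff.2
        intro p hp h
        exact hne ⟨p, hp, h⟩
      rw [this]; simp
    obtain ⟨⟨j, l⟩, hp, hjl, hper⟩ := hne
    simp only at hjl hper
    have hE : Ess A j := hper.ess hA
    have hf : Flat (A.filter (fun x => j ∉ x)) := hA.filter (aff_mem j).not hE.2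
    have hc := hE.card_not_mem hA hd
    have hi := ih _ hf hc
    -- partners of j
    set K := U.filter (fun t => t ≠ j ∧ Per A {t, j}) with hK
    have hKc : K.card ≤ D + 1 := by
      have := pow_le_card K (fun _ => j) A hA (by
        intro t ht
        simp only [hK, Finset.mem_filter] at ht
        exact ht.2.2) (by
        intro t _ h
        simp [hK] at h)
      rw [hd] at this
      exact (Nat.pow_le_pow_iff_right (by norm_num)).1 this
    have hsub : (U ×ˢ U).filter (fun p => p.1 ≠ p.2 ∧ Per A {p.1, p.2}) ⊆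
        ((U ×ˢ U).filter (fun p => p.1 ≠ p.2 ∧ Per (A.filter (fun x => j ∉ x)) {p.1, p.2})) ∪
          (K.image (fun t => (t, j)) ∪ K.image (fun t => (j, t))) := by
      rintro ⟨a, b⟩ hab
      simp only [Finset.mem_filter, Finset.mem_product] at hab
      obtain ⟨⟨ha, hb⟩, hne, hP⟩ := hab
      simp only [Finset.mem_union, Finset.mem_filter, Finset.mem_product, Finset.mem_image, hK,
        Prod.mk.injEq]
      by_cases h1 : a = j
      · subst h1
        right; right
        refine ⟨b, ⟨hb, fun h => hne h.symm, ?_⟩, rfl, rfl⟩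
        rw [Finset.pair_comm]; exact hP
      by_cases h2 : b = j
      · subst h2
        right; left
        exact ⟨a, ⟨ha, h1, hP⟩, rfl, rfl⟩
      left
      exact ⟨⟨ha, hb⟩, hne, hP.filter_not (fun h => h1 h.symm) (fun h => h2 h.symm)⟩
    have h1 := Finset.card_le_card hsub
    have h2 := Finset.card_union_le ((U ×ˢ U).filter (fun p => p.1 ≠ p.2 ∧
      Per (A.filter (fun x => j ∉ x)) {p.1, p.2}))
          (K.image (fun t => (t, j)) ∪ K.image (fun t => (j, t)))
    have h3 := Finset.card_union_le (K.image (fun t => (t, j))) (K.image (fun t => (j, t)))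
    have h4 : (K.image (fun t => (t, j))).card ≤ K.card := Finset.card_image_le
    have h5 : (K.image (fun t => (j, t))).card ≤ K.card := Finset.card_image_le
    have h6 : (D + 1) * (D + 1 + 1) = D * (D + 1) + 2 * (D + 1) := by ring
    rw [h6]
    linarith

theorem pair_sum (U : Finset α) (F : Finset (Finset α)) {w : ℕ}
    (hF : ∀ x ∈ F, x ⊆ U ∧ x.card = w) :
    ∑ p ∈ U.offDiag, (F.filter (fun x => ¬ (p.1 ∈ x ↔ p.2 ∈ x))).card =
      F.card * (2 * (w * (U.card - w))) := by
  have h1 : ∀ p ∈ U.offDiag, (F.filter (fun x => ¬ (p.1 ∈ x ↔ p.2 ∈ x))).card =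
      ∑ x ∈ F, if ¬ (p.1 ∈ x ↔ p.2 ∈ x) then 1 else 0 := by
    intro p _
    rw [Finset.card_filter]
  rw [Finset.sum_congr rfl h1, Finset.sum_comm]
  rw [Finset.card_eq_sum_ones, Finset.sum_mul]
  apply Finset.sum_congr rfl
  intro x hx
  obtain ⟨hxU, hxw⟩ := hF x hx
  rw [← Finset.card_filter]
  have h2 : U.offDiag.filter (fun p => ¬ (p.1 ∈ x ↔ p.2 ∈ x)) =
      (x ×ˢ (U \ x)) ∪ ((U \ x) ×ˢ x) := by
    ext ⟨a, b⟩
    simp only [Finset.mem_filter, Finset.mem_offDiag, Finset.mem_union, Finset.mem_product,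
      Finset.mem_sdiff]
    constructor
    · rintro ⟨⟨ha, hb, hab⟩, h⟩
      by_cases hax : a ∈ x
      · left; exact ⟨hax, hb, by tauto⟩
      · right; exact ⟨⟨ha, hax⟩, by tauto⟩
    · rintro (⟨h1, h2, h3⟩ | ⟨⟨h1, h2⟩, h3⟩)
      · refine ⟨⟨hxU h1, h2, ?_⟩, by tauto⟩
        rintro rfl; exact h3 h1
      · refine ⟨⟨h1, hxU h3, ?_⟩, by tauto⟩
        rintro rfl; exact h2 h3
  rw [h2, Finset.card_union_of_disjoint]
  · rw [Finset.card_product, Finset.card_product, Finset.card_sdiff_of_subset hxU, hxw]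
    ring
  · rw [Finset.disjoint_left]
    rintro ⟨a, b⟩ h1 h2
    simp only [Finset.mem_product, Finset.mem_sdiff] at h1 h2
    exact h2.1.2 h1.1

/-- counting zeros outside a split pair -/
theorem zero_sum (U : Finset α) (F : Finset (Finset α)) {w : ℕ}
    (hF : ∀ x ∈ F, x ⊆ U ∧ x.card = w) {j l : α} (hj : j ∈ U) (hl : l ∈ U) (hjl : j ≠ l) :
    ∑ i ∈ U \ {j, l}, (F.filter (fun x => i ∉ x ∧ ¬ (j ∈ x ↔ l ∈ x))).card =
      (F.filter (fun x => ¬ (j ∈ x ↔ l ∈ x))).card * (U.card - w - 1) := by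
  have h1 : ∀ i ∈ U \ {j, l}, (F.filter (fun x => i ∉ x ∧ ¬ (j ∈ x ↔ l ∈ x))).card =
      ∑ x ∈ F.filter (fun x => ¬ (j ∈ x ↔ l ∈ x)), if i ∉ x then 1 else 0 := by
    intro i _
    rw [← Finset.card_filter, Finset.filter_filter]
    congr 1
    ext x
    simp only [Finset.mem_filter]
    tauto
  rw [Finset.sum_congr rfl h1, Finset.sum_comm]
  rw [Finset.card_eq_sum_ones, Finset.sum_mul]
  apply Finset.sum_congr rfl
  intro x hx
  simp only [Finset.mem_filter] at hx
  obtain ⟨hxU, hxw⟩ := hF x hx.1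
  rw [← Finset.card_filter, one_mul]
  have h3 : (U \ x).card = U.card - w := by rw [Finset.card_sdiff_of_subset hxU, hxw]
  by_cases hjx : j ∈ x
  · have hlx : l ∉ x := by tauto
    have h2 : (U \ {j, l}).filter (fun i => i ∉ x) = (U \ x).erase l := by
      ext i
      simp only [Finset.mem_filter, Finset.mem_sdiff, Finset.mem_insert, Finset.mem_singleton,
        Finset.mem_erase]
      constructor
      · rintro ⟨⟨h1, h2⟩, h3⟩
        exact ⟨fun h => h2 (Or.inr h), h1, h3⟩
      · rintro ⟨h1, h2, h3⟩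
        refine ⟨⟨h2, ?_⟩, h3⟩
        rintro (rfl | rfl)
        · exact h3 hjx
        · exact h1 rfl
    rw [h2, Finset.card_erase_of_mem (by simp [hl, hlx]), h3]
  · have hlx : l ∈ x := by tauto
    have h2 : (U \ {j, l}).filter (fun i => i ∉ x) = (U \ x).erase j := by
      ext i
      simp only [Finset.mem_filter, Finset.mem_sdiff, Finset.mem_insert, Finset.mem_singleton,
        Finset.mem_erase]
      constructor
      · rintro ⟨⟨h1, h2⟩, h3⟩
        exact ⟨fun h => h2 (Or.inl h), h1, h3⟩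
      · rintro ⟨h1, h2, h3⟩
        refine ⟨⟨h2, ?_⟩, h3⟩
        rintro (rfl | rfl)
        · exact h1 rfl
        · exact h3 hlx
    rw [h2, Finset.card_erase_of_mem (by simp [hj, hjx]), h3]

end Pool.Agent.H59.CW
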