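import Pool.Agent.H59.CW.Count

namespace Pool.Agent.H59.CW

open Finset

set_option linter.unusedSectionVars false

variable {α : Type*} [DecidableEq α]

theorem cnt_filter_eq (A : Finset (Finset α)) (p : Finset α → Prop) [DecidablePred p] (w : ℕ) :
    ((A.filter (fun x => x.card = w)).filter p).card = cnt (A.filter p) w := by
  unfold cnt
  congr 1
  ext x; simp only [Finset.mem_filter]; tauto

theorem mid {u t : ℕ} (hQ : QB α (u + 1)) (U : Finset α) (A : Finset (Finset α)) (hA : Flat A)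
    (hU : ∀ x ∈ A, x ⊆ U) (hd : A.card = 2 ^ (2 * u + 3)) (hE : ∀ i ∈ U, Ess A i)
    (hopp : ∀ j ∈ U, ∀ l ∈ U, j ≠ l → ¬ ∀ x ∈ A, ¬ (j ∈ x ↔ l ∈ x))
    (htri : ∀ i ∈ U, ∀ j ∈ U, ∀ l ∈ U, j ≠ l → i ≠ j → i ≠ l → ¬ Per A {j, l} →
      ¬ ∀ x ∈ A, ¬ (j ∈ x ↔ l ∈ x) ↔ i ∉ x)
    (hn : U.card = 2 * u + t + 5) (ht : t ≤ 2 * u + 1) :
    cnt A (u + 2) ≤ (2 * (u + 2)).choose (u + 2) := by
  set F := A.filter (fun x => x.card = u + 2) with hFdef
  have hF : ∀ x ∈ F, x ⊆ U ∧ x.card = u + 2 := by
    intro x hx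
    simp only [hFdef, Finset.mem_filter] at hx
    exact ⟨hU x hx.1, hx.2⟩
  set c' := (2 * (u + 1)).choose (u + 1) with hc'
  have key : ∀ p ∈ U.offDiag,
      (u + t + 2) * (F.filter (fun x => ¬ (p.1 ∈ x ↔ p.2 ∈ x))).card ≤
        (2 * u + t + 3) * c' + (if Per A {p.1, p.2} then (t + 1) * c' else 0) := by
    rintro ⟨j, l⟩ hp
    rw [Finset.mem_offDiag] at hp
    obtain ⟨hj, hl, hjl⟩ := hp
    simp only at hj hl hjl ⊢
    split_ifs with hper
    · have h1 := step_pair hQ hA hd hjl (hE j hj) (hE l hl) (hopp j hj l hl hjl)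
      have h2 := step_pair hQ hA hd hjl.symm (hE l hl) (hE j hj) (hopp l hl j hj hjl.symm)
      rw [← cnt_filter_eq, ← hFdef] at h1 h2
      have h3 : (F.filter (fun x => ¬ (j ∈ x ↔ l ∈ x))).card ≤
          (F.filter (fun x => j ∈ x ∧ l ∉ x)).card + (F.filter (fun x => l ∈ x ∧ j ∉ x)).card := by
        rw [← Finset.card_union_of_disjoint]
        · apply Finset.card_le_card
          intro x hx
          simp only [Finset.mem_filter, Finset.mem_union] at hx ⊢
          tauto
        · rw [Finset.disjoint_left]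
          intro x h4 h5
          simp only [Finset.mem_filter] at h4 h5
          tauto
      have h4 : (F.filter (fun x => ¬ (j ∈ x ↔ l ∈ x))).card ≤ 2 * c' := by omega
      calc (u + t + 2) * (F.filter (fun x => ¬ (j ∈ x ↔ l ∈ x))).card
          ≤ (u + t + 2) * (2 * c') := Nat.mul_le_mul_left _ h4
        _ = (2 * u + t + 3) * c' + (t + 1) * c' := by ring
    · have h0 := zero_sum U F hF hj hl hjl
      have h1 : ∑ i ∈ U \ {j, l}, (F.filter (fun x => i ∉ x ∧ ¬ (j ∈ x ↔ l ∈ x))).card ≤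
          ∑ i ∈ U \ {j, l}, c' := by
        apply Finset.sum_le_sum
        intro i hi
        simp only [Finset.mem_sdiff, Finset.mem_insert, Finset.mem_singleton, not_or] at hi
        have := step_cell hQ hA hd hjl hi.2.1 hi.2.2 (hE i hi.1) hper (hopp j hj l hl hjl)
          (htri i hi.1 j hj l hl hjl hi.2.1 hi.2.2 hper)
        rw [← cnt_filter_eq, ← hFdef] at this
        exact this
      rw [h0, Finset.sum_const, smul_eq_mul, Finset.card_sdiff_of_subset (by
        intro i hi
        simp only [Finset.mem_insert, Finset.mem_singleton] at hi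
        rcases hi with rfl | rfl <;> assumption), Finset.card_pair hjl, hn] at h1
      have e1 : 2 * u + t + 5 - (u + 2) - 1 = u + t + 2 := by omega
      have e2 : 2 * u + t + 5 - 2 = 2 * u + t + 3 := by omega
      rw [e1, e2] at h1
      rw [mul_comm]
      omega
  have hsum := Finset.sum_le_sum key
  rw [← Finset.mul_sum, pair_sum U F hF, Finset.sum_add_distrib, Finset.sum_const, smul_eq_mul,
    Finset.offDiag_card, hn] at hsum
  have hN : ∑ p ∈ U.offDiag, (if Per A {p.1, p.2} then (t + 1) * c' else 0) ≤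
      ((2 * u + 3) * (2 * u + 4)) * ((t + 1) * c') := by
    rw [← Finset.sum_filter, Finset.sum_const, smul_eq_mul]
    apply Nat.mul_le_mul_right
    refine le_trans ?_ (ser_count U (2 * u + 3) A hA hd)
    apply Finset.card_le_card
    rintro ⟨a, b⟩ h
    simp only [Finset.mem_filter, Finset.mem_offDiag, Finset.mem_product] at h ⊢
    exact ⟨⟨h.1.1, h.1.2.1⟩, h.1.2.2, h.2⟩
  have hrec := Nat.succ_mul_centralBinom_succ (u + 1)
  rw [Nat.centralBinom, Nat.centralBinom] at hrec
  set c := (2 * (u + 2)).choose (u + 2) with hc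
  have hrec' : (u + 2) * c = 2 * (2 * u + 3) * c' := by
    have e : u + 1 + 1 = u + 2 := rfl
    rw [e] at hrec
    rw [hrec]
    ring
  have e3 : 2 * u + t + 5 - (u + 2) = u + t + 3 := by omega
  have e4 : (2 * u + t + 5) * (2 * u + t + 5) - (2 * u + t + 5) =
      (2 * u + t + 5) * (2 * u + t + 4) := by
    have : (2 * u + t + 5) * (2 * u + t + 5) =
      (2 * u + t + 5) * (2 * u + t + 4) + (2 * u + t + 5) := by ring
    omega
  rw [e3, e4] at hsum
  have hfin : (u + t + 2) * (F.card * (2 * ((u + 2) * (u + t + 3)))) ≤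
      (2 * u + t + 5) * (2 * u + t + 4) * ((2 * u + t + 3) * c') +
        ((2 * u + 3) * (2 * u + 4)) * ((t + 1) * c') := hsum.trans (by omega)
  have hgoal : F.card ≤ c := by
    obtain ⟨r, hr⟩ : ∃ r, 2 * u + 1 = t + r := ⟨2 * u + 1 - t, by omega⟩
    have hid : (4 * (2 * u + 3) * ((u + t + 3) * (u + t + 2)) : ℕ) =
        (2 * u + t + 5) * (2 * u + t + 4) * (2 * u + t + 3) +
          (2 * u + 3) * (2 * u + 4) * (t + 1) + (t + 1) * t * r := by
      have hr' : (r : ℤ) = 2 * u + 1 - t := by omega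
      zify
      rw [hr']
      ring
    have h1 : (4 * (2 * u + 3) * ((u + t + 3) * (u + t + 2))) * ((u + 2) * F.card) ≤
        (4 * (2 * u + 3) * ((u + t + 3) * (u + t + 2))) * ((u + 2) * c) := by
      calc (4 * (2 * u + 3) * ((u + t + 3) * (u + t + 2))) * ((u + 2) * F.card)
          = 2 * (2 * u + 3) * ((u + t + 2) * (F.card * (2 * ((u + 2) * (u + t + 3))))) := by
            ring
        _ ≤ 2 * (2 * u + 3) * ((2 * u + t + 5) * (2 * u + t + 4) * ((2 * u + t + 3) * c') +
              ((2 * u + 3) * (2 * u + 4)) * ((t + 1) * c')) := Nat.mul_le_mul_left _ hfin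
        _ = (2 * (2 * u + 3) * c') * ((2 * u + t + 5) * (2 * u + t + 4) * (2 * u + t + 3) +
              (2 * u + 3) * (2 * u + 4) * (t + 1)) := by ring
        _ ≤ (2 * (2 * u + 3) * c') * (4 * (2 * u + 3) * ((u + t + 3) * (u + t + 2))) := by
            apply Nat.mul_le_mul_left
            rw [hid]
            exact Nat.le_add_right _ _
        _ = (4 * (2 * u + 3) * ((u + t + 3) * (u + t + 2))) * ((u + 2) * c) := by
            rw [hrec']; ring
    have h2 := Nat.le_of_mul_le_mul_left h1 (by positivity)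
    exact Nat.le_of_mul_le_mul_left h2 (by omega)
  exact hgoal

end Pool.Agent.H59.CW
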