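import Pool.Agent.H59.CW.Big
import Pool.Agent.H59.CW.Mid

namespace Pool.Agent.H59.CW

open Finset

set_option linter.unusedSectionVars false

variable {α : Type*} [DecidableEq α]

theorem base_aux {u : ℕ} (hQ : ∀ v < u + 2, QB α v) (n : ℕ) :
    ∀ (U : Finset α) (A : Finset (Finset α)), U.card = n → Flat A → (∀ x ∈ A, x ⊆ U) →
      A.card = 2 ^ (2 * u + 3) → cnt A (u + 2) ≤ (2 * (u + 2)).choose (u + 2) := by
  induction n using Nat.strong_induction_on with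
  | _ n ih =>
  intro U A hn hA hU hd
  by_cases h0 : n ≤ 2 * (u + 2)
  · have h1 : cnt A (u + 2) ≤ n.choose (u + 2) := by
      rw [← hn, ← Finset.card_powersetCard]
      apply Finset.card_le_card
      intro x hx
      rw [Finset.mem_filter] at hx
      rw [Finset.mem_powersetCard]
      exact ⟨hU x hx.1, hx.2⟩
    exact h1.trans (Nat.choose_le_choose _ h0)
  by_cases h1 : ∃ i ∈ U, ∀ x ∈ A, i ∉ x
  · obtain ⟨i, hi, h1⟩ := h1
    have hc := Finset.card_erase_of_mem hi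
    have hpos : 0 < U.card := Finset.card_pos.2 ⟨i, hi⟩
    apply ih (n - 1) (by omega) (U.erase i) A (by rw [hc, hn]) hA _ hd
    intro x hx t ht
    rw [Finset.mem_erase]
    refine ⟨?_, hU x hx ht⟩
    rintro rfl
    exact h1 x hx ht
  by_cases h2 : ∃ i ∈ U, ∀ x ∈ A, i ∈ x
  · obtain ⟨i, hi, h2⟩ := h2
    exact step_one (v := u + 1) (hQ (u + 1) (by omega)) hA hd h2
  have hE : ∀ i ∈ U, Ess A i := by
    intro i hi
    push Not at h1 h2
    exact ⟨h1 i hi, h2 i hi⟩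
  by_cases h3 : ∃ j ∈ U, ∃ l ∈ U, j ≠ l ∧ ∀ x ∈ A, ¬ (j ∈ x ↔ l ∈ x)
  · obtain ⟨j, hj, l, hl, hjl, h3⟩ := h3
    exact step_opp (v := u + 1) (hQ (u + 1) (by omega)) hA hd hjl h3
  have hopp : ∀ j ∈ U, ∀ l ∈ U, j ≠ l → ¬ ∀ x ∈ A, ¬ (j ∈ x ↔ l ∈ x) := by
    intro j hj l hl hjl h
    exact h3 ⟨j, hj, l, hl, hjl, h⟩
  by_cases h4 : ∃ i ∈ U, ∃ j ∈ U, ∃ l ∈ U, j ≠ l ∧ i ≠ j ∧ i ≠ l ∧ ¬ Per A {j, l} ∧
      ∀ x ∈ A, ¬ (j ∈ x ↔ l ∈ x) ↔ i ∉ x
  · obtain ⟨i, hi, j, hj, l, hl, hjl, hij, hil, hp, h4⟩ := h4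
    exact step_tri (v := u + 1) (hQ (u + 1) (by omega)) hA hd hjl hij hil (hE i hi) hp h4
  have htri : ∀ i ∈ U, ∀ j ∈ U, ∀ l ∈ U, j ≠ l → i ≠ j → i ≠ l → ¬ Per A {j, l} →
      ¬ ∀ x ∈ A, ¬ (j ∈ x ↔ l ∈ x) ↔ i ∉ x := by
    intro i hi j hj l hl hjl hij hil hp h
    exact h4 ⟨i, hi, j, hj, l, hl, hjl, hij, hil, hp, h⟩
  by_cases h5 : n ≤ 4 * u + 6
  · exact mid (t := n - (2 * u + 5)) (hQ (u + 1) (by omega)) U A hA hU hd hE hopp htri
      (by omega) (by omega)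
  · apply big (w := u + 2) (by omega) hQ U A hA hU (by rw [hd]; congr 1) hE hopp _ (by omega)
    intro U' B hB hU' hBc hlt
    exact ih U'.card (by omega) U' B rfl hB hU' (by rw [hBc]; congr 1)

theorem base {w : ℕ} (hw : 1 ≤ w) (hQ : ∀ v < w, QB α v) (A : Finset (Finset α)) (hA : Flat A)
    (hd : A.card = 2 ^ (2 * w - 1)) : cnt A w ≤ (2 * w).choose w := by
  rcases Nat.lt_or_ge w 2 with h | h
  · have : w = 1 := by omega
    subst this
    have h1 : cnt A 1 ≤ A.card := Finset.card_filter_le _ _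
    rw [hd] at h1
    simpa using h1
  · obtain ⟨u, rfl⟩ : ∃ u, w = u + 2 := ⟨w - 2, by omega⟩
    exact base_aux hQ _ (A.biUnion id) A rfl hA (fun x hx => Finset.subset_biUnion_of_mem id hx)
      (by rw [hd]; congr 1)

/-- The main bound. -/
theorem QB_all (w : ℕ) : QB α w := by
  induction w using Nat.strong_induction_on with
  | _ w ih =>
    rcases Nat.eq_zero_or_pos w with rfl | h
    · exact QB_zero
    · exact QB_of_base h (ih (w - 1) (by omega)) (fun A hA hd => base h ih A hA hd)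

end Pool.Agent.H59.CW
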