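import Pool.Agent.H59.CW.Struct

namespace Pool.Agent.H59.CW

open Finset

set_option linter.unusedSectionVars false

variable {α : Type*} [DecidableEq α]

theorem rel {A : Finset (Finset α)} (hA : Flat A) {p q : Finset α → Prop} (hp : Aff p)
    (hq : Aff q) (h1 : ∃ x ∈ A, p x) (h3 : ∀ x ∈ A, p x → q x) :
    (∀ x ∈ A, q x) ∨ (∀ x ∈ A, q x ↔ p x) := by
  obtain ⟨e, he, hpe⟩ := h1
  by_cases hb : ∃ b ∈ A, ¬ p b ∧ q b
  · left
    obtain ⟨b, hb, hpb, hqb⟩ := hb
    intro c hc
    by_cases hpc : p c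
    · exact h3 c hc hpc
    · have h4 := hp c b e
      have h5 := hq c b e
      have h6 := h3 _ (hA.2 c hc b hb e he)
      have h7 := h3 e he hpe
      tauto
  · right
    push Not at hb
    intro x hx
    constructor
    · intro hqx
      by_contra hpx
      exact hb x hx hpx hqx
    · exact h3 x hx

/-- `z` is a period (direction) of `A`. -/
def Per (A : Finset (Finset α)) (z : Finset α) : Prop := ∀ x ∈ A, symmDiff x z ∈ A

theorem per_of_exists {A : Finset (Finset α)} (hA : Flat A) {z : Finset α}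
    (h : ∃ x ∈ A, symmDiff x z ∈ A) : Per A z := by
  obtain ⟨x, hx, hz⟩ := h
  intro u hu
  have := hA.2 u hu x hx _ hz
  convert this using 1
  ext i
  simp only [mem_tri, Finset.mem_symmDiff]
  tauto

theorem mem_symmDiff_pair {x : Finset α} {j l i : α} :
    i ∈ symmDiff x {j, l} ↔ (if i = j ∨ i = l then i ∉ x else i ∈ x) := by
  simp only [Finset.mem_symmDiff, Finset.mem_insert, Finset.mem_singleton]
  split_ifs with h <;> tauto

/-- split members with equal remainder coincide when `{j,l}` is not a period -/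
theorem split_inj {A : Finset (Finset α)} (hA : Flat A) {i j l : α} (hjl : j ≠ l) (hij : i ≠ j)
    (hil : i ≠ l) (hns : ¬ Per A {j, l}) {x y : Finset α} (hx : x ∈ A) (hy : y ∈ A)
    (hsx : ¬ (j ∈ x ↔ l ∈ x)) (hsy : ¬ (j ∈ y ↔ l ∈ y)) (hi : i ∈ x ↔ i ∈ y)
    (h : x \ {i, j, l} = y \ {i, j, l}) : x = y := by
  have hm : ∀ t, t ≠ i → t ≠ j → t ≠ l → (t ∈ x ↔ t ∈ y) := by
    intro t h1 h2 h3
    have := Finset.ext_iff.1 h t
    simp only [Finset.mem_sdiff, Finset.mem_insert, Finset.mem_singleton] at this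
    tauto
  by_cases hj : j ∈ x ↔ j ∈ y
  · ext t
    by_cases h1 : t = i
    · subst h1; exact hi
    by_cases h2 : t = j
    · subst h2; exact hj
    by_cases h3 : t = l
    · subst h3; tauto
    exact hm t h1 h2 h3
  · exfalso
    apply hns
    apply per_of_exists hA
    refine ⟨x, hx, ?_⟩
    convert hy using 1
    ext t
    rw [mem_symmDiff_pair]
    by_cases h2 : t = j
    · subst h2; simp; tauto
    by_cases h3 : t = l
    · subst h3; simp; tauto
    by_cases h1 : t = i
    · subst h1; simp [hij, hil]; exact hi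
    simp only [h2, h3, or_self, if_false]
    exact hm t h1 h2 h3

theorem split_inj' {A : Finset (Finset α)} (hA : Flat A) {i j l : α} (hjl : j ≠ l)
    (hij : i ≠ j) (hil : i ≠ l) (hns : ¬ Per A {j, l}) (B : Finset (Finset α)) (hBA : B ⊆ A)
    (hB : ∀ x ∈ B, i ∉ x ∧ ¬ (j ∈ x ↔ l ∈ x)) :
    (∀ x ∈ B, ∀ y ∈ B, x \ {i, j, l} = y \ {i, j, l} → x = y) ∧
      ∀ x ∈ B, (x ∩ {i, j, l}).card = 1 := by
  constructor
  · intro x hx y hy h
    exact split_inj hA hjl hij hil hns (hBA hx) (hBA hy) (hB x hx).2 (hB y hy).2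
      (iff_of_false (hB x hx).1 (hB y hy).1) h
  · intro x hx
    obtain ⟨h1, h2⟩ := hB x hx
    rw [Finset.card_eq_one]
    by_cases hj : j ∈ x
    · have hl : l ∉ x := by tauto
      refine ⟨j, ?_⟩
      ext t
      simp only [Finset.mem_inter, Finset.mem_insert, Finset.mem_singleton]
      constructor
      · rintro ⟨ht, rfl | rfl | rfl⟩
        · exact absurd ht h1
        · rfl
        · exact absurd ht hl
      · rintro rfl
        exact ⟨hj, by simp⟩
    · have hl : l ∈ x := by tauto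
      refine ⟨l, ?_⟩
      ext t
      simp only [Finset.mem_inter, Finset.mem_insert, Finset.mem_singleton]
      constructor
      · rintro ⟨ht, rfl | rfl | rfl⟩
        · exact absurd ht h1
        · exact absurd ht hj
        · rfl
      · rintro rfl
        exact ⟨hl, by simp⟩

theorem two_mul_choose (v : ℕ) : (2 * (v + 1)).choose (v + 1) = 2 * (2 * v + 1).choose v := by
  have h : 2 * (v + 1) = (2 * v + 1) + 1 := by ring
  rw [h, Nat.choose_succ_succ']
  have : (2 * v + 1).choose (v + 1) = (2 * v + 1).choose v := by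
    apply Nat.choose_symm_of_eq_add; omega
  omega

/-- A constant coordinate `1`. -/
theorem step_one {v : ℕ} (hQ : QB α v) {A : Finset (Finset α)} (hA : Flat A)
    (hd : A.card = 2 ^ (2 * v + 1)) {i : α} (hi : ∀ x ∈ A, i ∈ x) :
    cnt A (v + 1) ≤ (2 * (v + 1)).choose (v + 1) := by
  have := cell_bound' (w := v + 1) (d := 2 * v + 1) {i} {i} (by simpa using hQ) A hA hd
    (by simp; omega) (by
      intro x hx
      ext j; simp only [Finset.mem_inter, Finset.mem_singleton]
      constructor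
      · exact fun h => h.2
      · rintro rfl; exact ⟨hi _ hx, rfl⟩)
  simp only [Finset.card_singleton, Nat.add_sub_cancel] at this
  refine this.trans ?_
  have h := Nat.choose_le_centralBinom v (v + 1)
  rw [Nat.centralBinom] at h
  exact h

/-- Two coordinates that are always different. -/
theorem step_opp {v : ℕ} (hQ : QB α v) {A : Finset (Finset α)} (hA : Flat A)
    (hd : A.card = 2 ^ (2 * v + 1)) {j l : α} (hjl : j ≠ l)
    (ho : ∀ x ∈ A, ¬ (j ∈ x ↔ l ∈ x)) :
    cnt A (v + 1) ≤ (2 * (v + 1)).choose (v + 1) := by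
  by_cases h1 : ∃ x ∈ A, j ∈ x
  swap
  · push Not at h1
    apply step_one hQ hA hd (i := l)
    intro x hx
    have := ho x hx
    have := h1 x hx
    tauto
  by_cases h2 : ∃ x ∈ A, j ∉ x
  swap
  · push Not at h2
    exact step_one hQ hA hd (i := j) h2
  have hE : Ess A j := ⟨h1, h2⟩
  have hf1 : Flat (A.filter (fun x => j ∈ x)) := hA.filter (aff_mem j) h1
  have hf2 : Flat (A.filter (fun x => j ∉ x)) := hA.filter (aff_mem j).not h2
  have e1 := hE.card_mem hA hd
  have e2 := hE.card_not_mem hA hd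
  have b1 := cell_bound' (w := v + 1) (d := 2 * v) {j, l} {j} (by simpa using hQ) _ hf1 e1
    (by simp) (by
      intro x hx
      simp only [Finset.mem_filter] at hx
      have := ho x hx.1
      ext t
      simp only [Finset.mem_inter, Finset.mem_insert, Finset.mem_singleton]
      constructor
      · rintro ⟨ht, rfl | rfl⟩
        · rfl
        · tauto
      · rintro rfl; exact ⟨hx.2, Or.inl rfl⟩)
  have b2 := cell_bound' (w := v + 1) (d := 2 * v) {j, l} {l} (by simpa using hQ) _ hf2 e2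
    (by simp) (by
      intro x hx
      simp only [Finset.mem_filter] at hx
      have := ho x hx.1
      ext t
      simp only [Finset.mem_inter, Finset.mem_insert, Finset.mem_singleton]
      constructor
      · rintro ⟨ht, rfl | rfl⟩
        · tauto
        · rfl
      · rintro rfl; exact ⟨by tauto, Or.inr rfl⟩)
  simp only [Finset.card_singleton, Nat.add_sub_cancel] at b1 b2
  have b3 := cnt_add A (fun x => j ∈ x) (v + 1)
  rw [two_mul_choose]
  omega

/-- A triple `x_i + x_j + x_l = 1` with `{j,l}` not a period. -/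
theorem step_tri {v : ℕ} (hQ : QB α v) {A : Finset (Finset α)} (hA : Flat A)
    (hd : A.card = 2 ^ (2 * v + 1)) {i j l : α} (hjl : j ≠ l) (hij : i ≠ j) (hil : i ≠ l)
    (hE : Ess A i) (hns : ¬ Per A {j, l}) (ho : ∀ x ∈ A, ¬ (j ∈ x ↔ l ∈ x) ↔ i ∉ x) :
    cnt A (v + 1) ≤ (2 * (v + 1)).choose (v + 1) := by
  have hf1 : Flat (A.filter (fun x => i ∈ x)) := hA.filter (aff_mem i) hE.1
  have hf2 : Flat (A.filter (fun x => i ∉ x)) := hA.filter (aff_mem i).not hE.2
  have e1 := hE.card_mem hA hd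
  have e2 := hE.card_not_mem hA hd
  have b1 := cell_bound' (w := v + 1) (d := 2 * v) {i} {i} (by simpa using hQ) _ hf1 e1
    (by simp) (by
      intro x hx
      simp only [Finset.mem_filter] at hx
      ext t
      simp only [Finset.mem_inter, Finset.mem_singleton]
      constructor
      · exact fun h => h.2
      · rintro rfl; exact ⟨hx.2, rfl⟩)
  obtain ⟨g1, g2⟩ := split_inj' hA hjl hij hil hns (A.filter (fun x => i ∉ x))
    (Finset.filter_subset _ _) (by
      intro x hx
      simp only [Finset.mem_filter] at hx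
      exact ⟨hx.2, (ho x hx.1).2 hx.2⟩)
  have b2 := cell_bound (w := v + 1) (t := 1) (d := 2 * v) (by simpa using hQ) _ hf2 e2
    (by simp) {i, j, l} g1 g2
  simp only [Finset.card_singleton, Nat.add_sub_cancel] at b1 b2
  have b3 := cnt_add A (fun x => i ∈ x) (v + 1)
  rw [two_mul_choose]
  omega

/-- The bound for a triple when `{j,l}` is not a period. -/
theorem step_cell {u : ℕ} (hQ : QB α (u + 1)) {A : Finset (Finset α)} (hA : Flat A)
    (hd : A.card = 2 ^ (2 * u + 3)) {i j l : α} (hjl : j ≠ l) (hij : i ≠ j) (hil : i ≠ l)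
    (hE : Ess A i) (hns : ¬ Per A {j, l}) (ho : ¬ ∀ x ∈ A, ¬ (j ∈ x ↔ l ∈ x))
    (ht : ¬ ∀ x ∈ A, ¬ (j ∈ x ↔ l ∈ x) ↔ i ∉ x) :
    cnt (A.filter (fun x => i ∉ x ∧ ¬ (j ∈ x ↔ l ∈ x))) (u + 2) ≤
      (2 * (u + 1)).choose (u + 1) := by
  by_cases hne : ∃ x ∈ A, i ∉ x ∧ ¬ (j ∈ x ↔ l ∈ x)
  swap
  · have : A.filter (fun x => i ∉ x ∧ ¬ (j ∈ x ↔ l ∈ x)) = ∅ := by
      apply Finset.filter_eq_empty_iff.2
      intro x hx h
      exact hne ⟨x, hx, h⟩
    rw [this]
    simp [cnt]
  have hf2 : Flat (A.filter (fun x => i ∉ x)) := hA.filter (aff_mem i).not hE.2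
  have e2 := hE.card_not_mem hA (d := 2 * u + 2) hd
  have hns2 : ∃ x ∈ A.filter (fun x => i ∉ x), ¬ ¬ (j ∈ x ↔ l ∈ x) := by
    by_contra hcon
    push Not at hcon
    rcases rel hA (aff_mem i).not (aff_split j l) hE.2 (by
      intro x hx hix
      have := hcon x (by simp [hx, hix])
      tauto) with h | h
    · exact ho h
    · exact ht h
  have hns1 : ∃ x ∈ A.filter (fun x => i ∉ x), ¬ (j ∈ x ↔ l ∈ x) := by
    obtain ⟨x, hx, h1, h2⟩ := hne
    exact ⟨x, by simp [hx, h1], h2⟩
  have hf3 := hf2.filter (aff_split j l) hns1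
  have e3 := hf2.pow_half (aff_split j l) hns1 hns2 (d := 2 * u + 1) e2
  rw [Finset.filter_filter] at hf3 e3
  obtain ⟨g1, g2⟩ := split_inj' hA hjl hij hil hns
    (A.filter (fun x => i ∉ x ∧ ¬ (j ∈ x ↔ l ∈ x))) (Finset.filter_subset _ _) (by
      intro x hx
      simp only [Finset.mem_filter] at hx
      exact hx.2)
  have := cell_bound (w := u + 2) (t := 1) (d := 2 * u + 1) (by simpa using hQ) _ hf3 e3
    (by omega) {i, j, l} g1 g2
  have e : 2 * (u + 1) = 2 * u + 1 + 1 := by ring
  rw [e]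
  simpa using this

/-- The bound for an ordered pair. -/
theorem step_pair {u : ℕ} (hQ : QB α (u + 1)) {A : Finset (Finset α)} (hA : Flat A)
    (hd : A.card = 2 ^ (2 * u + 3)) {j l : α} (hjl : j ≠ l)
    (hEj : Ess A j) (hEl : Ess A l) (ho : ¬ ∀ x ∈ A, ¬ (j ∈ x ↔ l ∈ x)) :
    cnt (A.filter (fun x => j ∈ x ∧ l ∉ x)) (u + 2) ≤ (2 * (u + 1)).choose (u + 1) := by
  by_cases hne : ∃ x ∈ A, j ∈ x ∧ l ∉ x
  swap
  · have : A.filter (fun x => j ∈ x ∧ l ∉ x) = ∅ := by
      apply Finset.filter_eq_empty_iff.2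
      intro x hx h
      exact hne ⟨x, hx, h⟩
    rw [this]
    simp [cnt]
  have hf2 : Flat (A.filter (fun x => j ∈ x)) := hA.filter (aff_mem j) hEj.1
  have e2 := hEj.card_mem hA (d := 2 * u + 2) hd
  have hns2 : ∃ x ∈ A.filter (fun x => j ∈ x), ¬ l ∉ x := by
    by_contra hcon
    push Not at hcon
    rcases rel hA (aff_mem j) (aff_mem l).not hEj.1 (by
      intro x hx hix
      exact hcon x (by simp [hx, hix])) with h | h
    · obtain ⟨x, hx, hl⟩ := hEl.1
      exact h x hx hl
    · apply ho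
      intro x hx
      have := h x hx
      tauto
  have hns1 : ∃ x ∈ A.filter (fun x => j ∈ x), l ∉ x := by
    obtain ⟨x, hx, h1, h2⟩ := hne
    exact ⟨x, by simp [hx, h1], h2⟩
  have hf3 := hf2.filter (aff_mem l).not hns1
  have e3 := hf2.pow_half (aff_mem l).not hns1 hns2 (d := 2 * u + 1) e2
  rw [Finset.filter_filter] at hf3 e3
  have := cell_bound' (w := u + 2) (d := 2 * u + 1) {j, l} {j} (by simpa using hQ) _ hf3 e3
    (by simp; omega) (by
      intro x hx
      simp only [Finset.mem_filter] at hx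
      ext t
      simp only [Finset.mem_inter, Finset.mem_insert, Finset.mem_singleton]
      constructor
      · rintro ⟨ht, rfl | rfl⟩
        · rfl
        · exact absurd ht hx.2.2
      · rintro rfl; exact ⟨hx.2.1, Or.inl rfl⟩)
  have e : 2 * (u + 1) = 2 * u + 1 + 1 := by ring
  rw [e]
  simpa using this

end Pool.Agent.H59.CW
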