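import Pool.Agent.H59.CW.Basic

namespace Pool.Agent.H59.CW

open Finset

set_option linter.unusedSectionVars false

variable {α : Type*} [DecidableEq α]

/-- The bound for dimension `d ≥ 2w - 1`. -/
def QB (α : Type*) [DecidableEq α] (w : ℕ) : Prop :=
  ∀ (A : Finset (Finset α)) (d : ℕ), Flat A → A.card = 2 ^ d → 2 * w ≤ d + 1 →
    cnt A w ≤ (d + 1).choose w

theorem QB_zero : QB α 0 := by
  intro A d _ _ _
  unfold cnt
  rw [Nat.choose_zero_right]
  apply Finset.card_le_one.2
  intro x hx y hy
  simp only [Finset.mem_filter, Finset.card_eq_zero] at hx hy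
  rw [hx.2, hy.2]

/-- members of a flat which agree on `T` -/
theorem cell_bound {w t d : ℕ} (hQ : QB α (w - t)) (B : Finset (Finset α)) (hB : Flat B)
    (hd : B.card = 2 ^ d) (hw : 2 * (w - t) ≤ d + 1) (T : Finset α)
    (h1 : ∀ x ∈ B, ∀ y ∈ B, x \ T = y \ T → x = y) (h2 : ∀ x ∈ B, (x ∩ T).card = t) :
    cnt B w ≤ (d + 1).choose (w - t) := by
  obtain ⟨e1, e2⟩ := cnt_era (A := B) (T := T) h1 (t := t) (w := w) (fun x hx _ => h2 x hx)
  exact e2.trans (hQ _ d (hB.era T) (by rw [e1, hd]) hw)

/-- same, when the trace on `T` is constant -/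
theorem cell_bound' {w d : ℕ} (T t : Finset α) (hQ : QB α (w - t.card))
    (B : Finset (Finset α)) (hB : Flat B)
    (hd : B.card = 2 ^ d) (hw : 2 * (w - t.card) ≤ d + 1)
    (h2 : ∀ x ∈ B, x ∩ T = t) :
    cnt B w ≤ (d + 1).choose (w - t.card) := by
  apply cell_bound hQ B hB hd hw T
  · intro x hx y hy h
    rw [← Finset.sdiff_union_inter x T, ← Finset.sdiff_union_inter y T, h, h2 x hx, h2 y hy]
  · intro x hx
    rw [h2 x hx]

/-- A coordinate is essential: it is not constant on `A`. -/
def Ess (A : Finset (Finset α)) (i : α) : Prop := (∃ x ∈ A, i ∈ x) ∧ (∃ x ∈ A, i ∉ x)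

theorem Ess.card_mem {A : Finset (Finset α)} (hA : Flat A) {i : α} (h : Ess A i) {d : ℕ}
    (hd : A.card = 2 ^ (d + 1)) : (A.filter (fun x => i ∈ x)).card = 2 ^ d :=
  hA.pow_half (aff_mem i) h.1 h.2 hd

theorem Ess.card_not_mem {A : Finset (Finset α)} (hA : Flat A) {i : α} (h : Ess A i) {d : ℕ}
    (hd : A.card = 2 ^ (d + 1)) : (A.filter (fun x => i ∉ x)).card = 2 ^ d := by
  refine hA.pow_half (aff_mem i).not h.2 ?_ hd
  obtain ⟨x, hx, hi⟩ := h.1
  exact ⟨x, hx, by simpa using hi⟩

/-- Pascal step. -/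
theorem QB_of_base {w : ℕ} (hw : 1 ≤ w) (hQ : QB α (w - 1))
    (hbase : ∀ A : Finset (Finset α), Flat A → A.card = 2 ^ (2 * w - 1) →
      cnt A w ≤ (2 * w).choose w) : QB α w := by
  intro A d hA hd hwd
  induction d generalizing A with
  | zero => omega
  | succ d ih =>
    rcases Nat.lt_or_ge (2 * w) (d + 2) with hlt | hge
    · -- there is an essential coordinate
      have hne : ∃ x ∈ A, ∃ y ∈ A, x ≠ y := by
        have : 1 < A.card := by
          rw [hd]; exact Nat.one_lt_two_pow (by omega)
        obtain ⟨x, hx, y, hy, h⟩ := Finset.one_lt_card.1 this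
        exact ⟨x, hx, y, hy, h⟩
      obtain ⟨x, hx, y, hy, hxy⟩ := hne
      have : ∃ i, Ess A i := by
        by_contra hcon
        push Not at hcon
        apply hxy
        ext i
        have h3 := hcon i
        unfold Ess at h3
        constructor
        · intro hi
          by_contra hi'
          exact h3 ⟨⟨x, hx, hi⟩, ⟨y, hy, hi'⟩⟩
        · intro hi
          by_contra hi'
          exact h3 ⟨⟨y, hy, hi⟩, ⟨x, hx, hi'⟩⟩
      obtain ⟨i, hi⟩ := this
      have e1 := hi.card_mem hA hd
      have e2 := hi.card_not_mem hA hd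
      have hf1 : Flat (A.filter (fun x => i ∈ x)) := hA.filter (aff_mem i) hi.1
      have hf2 : Flat (A.filter (fun x => i ∉ x)) := hA.filter (aff_mem i).not hi.2
      have b1 : cnt (A.filter (fun x => i ∈ x)) w ≤ (d + 1).choose (w - 1) := by
        have := cell_bound' (w := w) (d := d) {i} {i} (by simpa using hQ) _ hf1 e1
          (by simp; omega) (by
            intro x hx
            simp only [Finset.mem_filter] at hx
            ext j; simp only [Finset.mem_inter, Finset.mem_singleton]
            constructor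
            · exact fun h => h.2
            · rintro rfl; exact ⟨hx.2, rfl⟩)
        simpa using this
      have b2 := ih _ hf2 e2 (by omega)
      have b3 := cnt_add A (fun x => i ∈ x) w
      have b4 : (d + 1 + 1).choose w = (d + 1).choose (w - 1) + (d + 1).choose w := by
        obtain ⟨v, rfl⟩ : ∃ v, w = v + 1 := ⟨w - 1, by omega⟩
        rw [Nat.choose_succ_succ]; simp
      omega
    · have hE : 2 * w = d + 2 := by omega
      have := hbase A hA (by rw [hd]; congr 1; omega)
      have h5 : d + 1 + 1 = 2 * w := by omega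
      rw [h5]; exact this

end Pool.Agent.H59.CW
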