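import Pool.Agent.H59.CW.Main

namespace Pool.Agent.H59.CW

open Finset

set_option linter.unusedSectionVars false

variable {n : ℕ}

/-- support of a vector -/
def supp (x : Fin n → ZMod 2) : Finset (Fin n) := Finset.univ.filter (fun i => x i ≠ 0)

/-- indicator vector of a set -/
def ind (s : Finset (Fin n)) : Fin n → ZMod 2 := fun i => if i ∈ s then 1 else 0

theorem mem_supp {x : Fin n → ZMod 2} {i : Fin n} : i ∈ supp x ↔ x i ≠ 0 := by
  simp [supp]

theorem zmod2_ne {a : ZMod 2} : a ≠ 0 ↔ a = 1 := by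
  revert a; decide

theorem supp_ind (s : Finset (Fin n)) : supp (ind s) = s := by
  ext i
  rw [mem_supp]
  unfold ind
  split_ifs with h <;> simp [h]

theorem ind_supp (x : Fin n → ZMod 2) : ind (supp x) = x := by
  ext1 i
  unfold ind
  by_cases h : i ∈ supp x
  · rw [if_pos h]
    rw [mem_supp, zmod2_ne] at h
    exact h.symm
  · rw [if_neg h]
    rw [mem_supp] at h
    push Not at h
    exact h.symm

theorem add_ne (a b : ZMod 2) : a + b ≠ 0 ↔ ¬ (a ≠ 0 ↔ b ≠ 0) := by
  revert a b; decide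

theorem supp_add (x y : Fin n → ZMod 2) : supp (x + y) = symmDiff (supp x) (supp y) := by
  ext i
  rw [Finset.mem_symmDiff, mem_supp, mem_supp, mem_supp, Pi.add_apply, add_ne]
  tauto

theorem supp_injective : Function.Injective (supp (n := n)) := by
  intro x y h
  rw [← ind_supp x, h, ind_supp]

theorem ind_injective : Function.Injective (ind (n := n)) := by
  intro x y h
  rw [← supp_ind x, h, supp_ind]

theorem ind_symmDiff (s t : Finset (Fin n)) : ind (symmDiff s t) = ind s + ind t := by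
  apply supp_injective
  rw [supp_ind, supp_add, supp_ind, supp_ind]

theorem norm_eq (x : Fin n → ZMod 2) : hammingNorm x = (supp x).card := rfl

open Classical in
/-- the family of supports of a subspace -/
noncomputable def fam (U : Submodule (ZMod 2) (Fin n → ZMod 2)) : Finset (Finset (Fin n)) :=
  Finset.univ.filter (fun s => ind s ∈ U)

theorem mem_fam {U : Submodule (ZMod 2) (Fin n → ZMod 2)} {s : Finset (Fin n)} :
    s ∈ fam U ↔ ind s ∈ U := by
  simp [fam]

theorem empty_mem_fam (U : Submodule (ZMod 2) (Fin n → ZMod 2)) : ∅ ∈ fam U := by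
  rw [mem_fam]
  have : ind (∅ : Finset (Fin n)) = 0 := by
    ext1 i; simp [ind]
  rw [this]
  exact U.zero_mem

theorem fam_symmDiff {U : Submodule (ZMod 2) (Fin n → ZMod 2)} {s t : Finset (Fin n)}
    (hs : s ∈ fam U) (ht : t ∈ fam U) : symmDiff s t ∈ fam U := by
  rw [mem_fam] at *
  rw [ind_symmDiff]
  exact U.add_mem hs ht

theorem fam_flat (U : Submodule (ZMod 2) (Fin n → ZMod 2)) : Flat (fam U) :=
  ⟨⟨∅, empty_mem_fam U⟩, fun _ hx _ hy _ hz => fam_symmDiff (fam_symmDiff hx hy) hz⟩

theorem fam_ncard (U : Submodule (ZMod 2) (Fin n → ZMod 2)) :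
    (U : Set (Fin n → ZMod 2)).ncard = (fam U).card := by
  rw [← Set.ncard_coe_finset (fam U), ← Set.ncard_image_of_injective _ (ind_injective (n := n))]
  congr 1
  ext x
  rw [Set.mem_image]
  constructor
  · intro hx
    exact ⟨supp x, by rw [Finset.mem_coe, mem_fam, ind_supp]; exact hx, ind_supp x⟩
  · rintro ⟨s, hs, rfl⟩
    rw [Finset.mem_coe, mem_fam] at hs
    exact hs

theorem fam_count (U : Submodule (ZMod 2) (Fin n → ZMod 2)) (w : ℕ) :
    {x : Fin n → ZMod 2 | x ∈ U ∧ hammingNorm x = w}.ncard = cnt (fam U) w := by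
  unfold cnt
  rw [← Set.ncard_coe_finset, ← Set.ncard_image_of_injective _ (ind_injective (n := n))]
  congr 1
  ext x
  rw [Set.mem_image]
  constructor
  · rintro ⟨hx, hw⟩
    refine ⟨supp x, ?_, ind_supp x⟩
    rw [Finset.mem_coe, Finset.mem_filter, mem_fam, ind_supp]
    exact ⟨hx, hw⟩
  · rintro ⟨s, hs, rfl⟩
    rw [Finset.mem_coe, Finset.mem_filter, mem_fam] at hs
    refine ⟨hs.1, ?_⟩
    rw [norm_eq, supp_ind]
    exact hs.2

theorem card_of_finrank {U : Submodule (ZMod 2) (Fin n → ZMod 2)} {k : ℕ} :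
    Module.finrank (ZMod 2) U = k ↔ (fam U).card = 2 ^ k := by
  have h : (fam U).card = 2 ^ Module.finrank (ZMod 2) U := by
    rw [← fam_ncard]
    have := Module.natCard_eq_pow_finrank (K := ZMod 2) (V := U)
    rw [Nat.card_zmod] at this
    rw [← this]
    exact (Nat.card_coe_set_eq _).symm
  rw [h]
  constructor
  · intro e; rw [e]
  · intro e
    exact Nat.pow_right_injective (le_refl 2) e

/-- the subspace with given supports -/
def sub (A : Finset (Finset (Fin n))) (h0 : ∅ ∈ A)
    (h1 : ∀ x ∈ A, ∀ y ∈ A, symmDiff x y ∈ A) : Submodule (ZMod 2) (Fin n → ZMod 2) where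
  carrier := {x | supp x ∈ A}
  add_mem' := by
    intro x y hx hy
    change supp (x + y) ∈ A
    rw [supp_add]
    exact h1 _ hx _ hy
  zero_mem' := by
    change supp (0 : Fin n → ZMod 2) ∈ A
    have : supp (0 : Fin n → ZMod 2) = ∅ := by
      ext i; simp [mem_supp]
    rw [this]; exact h0
  smul_mem' := by
    intro c x hx
    rcases (by revert c; decide : c = 0 ∨ c = 1) with rfl | rfl
    · rw [zero_smul]
      change supp (0 : Fin n → ZMod 2) ∈ A
      have : supp (0 : Fin n → ZMod 2) = ∅ := by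
        ext i; simp [mem_supp]
      rw [this]; exact h0
    · rw [one_smul]; exact hx

theorem fam_sub (A : Finset (Finset (Fin n))) (h0 : ∅ ∈ A)
    (h1 : ∀ x ∈ A, ∀ y ∈ A, symmDiff x y ∈ A) : fam (sub A h0 h1) = A := by
  ext s
  rw [mem_fam]
  change supp (ind s) ∈ A ↔ _
  rw [supp_ind]

/-- parity of the size is an affine predicate -/
theorem aff_odd {α : Type*} [DecidableEq α] : Aff (fun x : Finset α => Odd x.card) := by
  have h : ∀ x y : Finset α, (Odd (symmDiff x y).card ↔ ¬ (Odd x.card ↔ Odd y.card)) := by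
    intro x y
    have e1 : (symmDiff x y).card = (x \ y).card + (y \ x).card := by
      rw [symmDiff_def, Finset.sup_eq_union, Finset.card_union_of_disjoint]
      exact disjoint_sdiff_sdiff
    have e2 := Finset.card_sdiff_add_card_inter x y
    have e3 := Finset.card_sdiff_add_card_inter y x
    rw [Finset.inter_comm] at e3
    rw [← Nat.not_even_iff_odd, ← Nat.not_even_iff_odd, ← Nat.not_even_iff_odd, e1, ← e2, ← e3]
    rw [Nat.even_add, Nat.even_add, Nat.even_add]
    tauto
  intro x y z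
  change Odd (symmDiff (symmDiff x y) z).card ↔ (Odd x.card ↔ (Odd y.card ↔ Odd z.card))
  rw [h, h]
  tauto

/-- the affine bound for the odd members -/
theorem odd_part {A : Finset (Finset (Fin n))} (hA : Flat A) (h0 : ∅ ∈ A) {k : ℕ}
    (hd : A.card = 2 ^ k) (hne : ∃ x ∈ A, Odd x.card) :
    ∃ d, k = d + 1 ∧ (A.filter (fun x => Odd x.card)).card = 2 ^ d := by
  have h1 := hA.card_filter aff_odd hne ⟨∅, h0, by simp⟩
  rcases k with _ | d
  · rw [hd, pow_zero] at h1; omega
  · refine ⟨d, rfl, ?_⟩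
    rw [hd, pow_succ] at h1; omega

theorem cnt_odd {A : Finset (Finset (Fin n))} {w : ℕ} (hw : Odd w) :
    cnt A w = cnt (A.filter (fun x => Odd x.card)) w := by
  unfold cnt
  congr 1
  ext x
  simp only [Finset.mem_filter]
  constructor
  · rintro ⟨h1, h2⟩; exact ⟨⟨h1, by rw [h2]; exact hw⟩, h2⟩
  · rintro ⟨h1, h2⟩; exact ⟨h1.1, h2⟩

theorem upper_odd {A : Finset (Finset (Fin n))} (hA : Flat A) (h0 : ∅ ∈ A) {k w : ℕ}
    (hd : A.card = 2 ^ k) (hw : Odd w) (hk : 2 * w ≤ k) : cnt A w ≤ k.choose w := by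
  by_cases hne : ∃ x ∈ A, Odd x.card
  · obtain ⟨d, rfl, hc⟩ := odd_part hA h0 hd hne
    rw [cnt_odd hw]
    exact QB_all w _ d (hA.filter aff_odd hne) hc hk
  · have : cnt A w = 0 := by
      unfold cnt
      rw [Finset.card_eq_zero]
      apply Finset.filter_eq_empty_iff.2
      intro x hx h
      exact hne ⟨x, hx, by rw [h]; exact hw⟩
    rw [this]; exact Nat.zero_le _

theorem compl_tri (x y z : Finset (Fin n)) : tri xᶜ yᶜ zᶜ = (tri x y z)ᶜ := by
  ext i
  simp only [mem_tri, Finset.mem_compl]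
  by_cases h1 : i ∈ x <;> by_cases h2 : i ∈ y <;> by_cases h3 : i ∈ z <;> simp [h1, h2, h3]

theorem upper_odd_compl {A : Finset (Finset (Fin n))} (hA : Flat A) (h0 : ∅ ∈ A) {k w : ℕ}
    (hd : A.card = 2 ^ k) (hw : Odd w) (hk : 2 * (n - w) ≤ k) :
    cnt A w ≤ k.choose (n - w) := by
  by_cases hne : ∃ x ∈ A, Odd x.card
  · obtain ⟨d, rfl, hc⟩ := odd_part hA h0 hd hne
    rw [cnt_odd hw]
    set B := A.filter (fun x => Odd x.card) with hB
    have hfB : Flat B := hA.filter aff_odd hne
    have hfB' : Flat (B.image (fun x => xᶜ)) := by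
      refine ⟨hfB.1.image _, ?_⟩
      intro x hx y hy z hz
      rw [Finset.mem_image] at *
      obtain ⟨x', hx', rfl⟩ := hx
      obtain ⟨y', hy', rfl⟩ := hy
      obtain ⟨z', hz', rfl⟩ := hz
      exact ⟨tri x' y' z', hfB.2 _ hx' _ hy' _ hz', (compl_tri _ _ _).symm⟩
    have h1 : (B.image (fun x => xᶜ)).card = 2 ^ d := by
      rw [Finset.card_image_of_injective _ compl_injective, hc]
    have h2 : cnt B w ≤ cnt (B.image (fun x => xᶜ)) (n - w) := by
      unfold cnt
      apply Finset.card_le_card_of_injOn (fun x => xᶜ)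
      · intro x hx
        simp only [Finset.coe_filter, Set.mem_ofPred_eq] at hx ⊢
        refine ⟨Finset.mem_image_of_mem _ hx.1, ?_⟩
        rw [Finset.card_compl, Fintype.card_fin, hx.2]
      · exact compl_injective.injOn
    exact h2.trans (QB_all (n - w) _ d hfB' h1 hk)
  · have : cnt A w = 0 := by
      unfold cnt
      rw [Finset.card_eq_zero]
      apply Finset.filter_eq_empty_iff.2
      intro x hx h
      exact hne ⟨x, hx, by rw [h]; exact hw⟩
    rw [this]; exact Nat.zero_le _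

theorem card_odd_powerset {S : Finset (Fin n)} {k : ℕ} (hS : S.card = k + 1) :
    (S.powerset.filter (fun x => Odd x.card)).card = 2 ^ k ∧
      (S.powerset.filter (fun x => ¬ Odd x.card)).card = 2 ^ k := by
  have hf : Flat S.powerset := by
    refine ⟨⟨∅, by simp⟩, ?_⟩
    intro x hx y hy z hz
    rw [Finset.mem_powerset] at *
    exact tri_subset hx hy hz
  have hc : S.powerset.card = 2 ^ (k + 1) := by rw [Finset.card_powerset, hS]
  obtain ⟨i, hi⟩ := Finset.card_pos.1 (by omega : 0 < S.card)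
  have h1 : ∃ x ∈ S.powerset, Odd x.card := ⟨{i}, by simpa using hi, by simp⟩
  have h2 : ∃ x ∈ S.powerset, ¬ Odd x.card := ⟨∅, by simp, by simp⟩
  refine ⟨hf.pow_half aff_odd h1 h2 hc, hf.pow_half aff_odd.not h2 ?_ hc⟩
  obtain ⟨x, hx, h⟩ := h1
  exact ⟨x, hx, by simpa using h⟩

theorem odd_symmDiff (x y : Finset (Fin n)) :
    Odd (symmDiff x y).card ↔ ¬ (Odd x.card ↔ Odd y.card) := by
  have h : Odd (tri x y ∅).card ↔
      (Odd x.card ↔ (Odd y.card ↔ Odd (∅ : Finset (Fin n)).card)) := aff_odd (α := Fin n) x y ∅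
  have e : tri x y ∅ = symmDiff x y := by
    unfold tri
    exact symmDiff_bot _
  rw [e] at h
  have h0 : ¬ Odd (∅ : Finset (Fin n)).card := by simp
  tauto

end Pool.Agent.H59.CW
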